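import Pool.Agent.Work.MP_495a89_gro.Interface

/-!
# Block CMP (helper72)
-/

set_option autoImplicit false

namespace Pool.GRO

open Finset

theorem CMP_one_le {p : ℕ} (hp : p.Prime) : 1 ≤ (1 - 1 / (p : ℝ))⁻¹ := by
  have h2 : (1 : ℝ) < p := by exact_mod_cast hp.one_lt
  have h3 : 1 / (p : ℝ) < 1 := by rw [div_lt_one (by linarith)]; exact h2
  have h4 : 0 < 1 / (p : ℝ) := by positivity
  exact (one_le_inv₀ (by linarith)).mpr (by linarith)

theorem CMP_sub {A B : Finset ℕ} {f : ℕ → ℝ} (hAB : A ⊆ B) (h : ∀ p ∈ B, 1 ≤ f p) :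
    ∏ p ∈ A, f p ≤ ∏ p ∈ B, f p := by
  classical
  have key : ∀ s : Finset ℕ, (∀ p ∈ s, 1 ≤ f p) → 1 ≤ ∏ p ∈ s, f p := by
    intro s hs
    exact Finset.prod_induction f (fun x => 1 ≤ x) (fun a b ha hb => one_le_mul_of_one_le_of_one_le ha hb)
      le_rfl hs
  rw [← Finset.prod_sdiff hAB]
  have h1 := key (B \ A) (fun p hp => h p (mem_sdiff.mp hp).1)
  have h2 := key A (fun p hp => h p (hAB hp))
  calc ∏ p ∈ A, f p = 1 * ∏ p ∈ A, f p := by ring
    _ ≤ _ := by gcongr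

theorem CMP_union {z w : ℕ} (hzw : z ≤ w) : Disjoint (Pr 0 z) (Pr z w) ∧ Pr 0 z ∪ Pr z w = Pr 0 w := by
  constructor
  · rw [Finset.disjoint_left]
    intro p h1 h2
    simp only [Pr, mem_filter, mem_Ioc] at h1 h2
    omega
  · ext p
    simp only [Pr, mem_union, mem_filter, mem_Ioc]
    constructor
    · rintro (⟨h1, h2⟩ | ⟨h1, h2⟩)
      · exact ⟨⟨h1.1, by omega⟩, h2⟩
      · exact ⟨⟨by omega, h1.2⟩, h2⟩
    · rintro ⟨h1, h2⟩
      by_cases h : p ≤ z
      · exact Or.inl ⟨⟨h1.1, h⟩, h2⟩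
      · exact Or.inr ⟨⟨by omega, h1.2⟩, h2⟩

theorem p_CMP (hEXG : S_EXG) (hTAI : S_TAI) (hSQP : S_SQP) : S_CMP := by
  classical
  intro n z w Y hn hz hzw hwY
  obtain ⟨hd, hu⟩ := CMP_union hzw
  have hA : ∀ p ∈ n.primeFactors, p.Prime := fun p hp => Nat.prime_of_mem_primeFactors hp
  -- split at z
  have h1 : ∏ p ∈ n.primeFactors, (1 - 1 / (p : ℝ))⁻¹ =
      (∏ p ∈ n.primeFactors.filter (fun p => p ≤ z), (1 - 1 / (p : ℝ))⁻¹) *
      ∏ p ∈ n.primeFactors.filter (fun p => ¬ p ≤ z), (1 - 1 / (p : ℝ))⁻¹ :=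
    (Finset.prod_filter_mul_prod_filter_not _ _ _).symm
  have h2 : ∏ p ∈ n.primeFactors.filter (fun p => p ≤ z), (1 - 1 / (p : ℝ))⁻¹ ≤ VP z := by
    unfold VP
    apply CMP_sub
    · intro p hp
      rw [mem_filter] at hp
      simp only [Pr, mem_filter, mem_Ioc]
      exact ⟨⟨(hA p hp.1).pos, hp.2⟩, hA p hp.1⟩
    · intro p hp
      simp only [Pr, mem_filter] at hp
      exact CMP_one_le hp.2
  obtain ⟨s1, -⟩ := hSQP (n.primeFactors.filter (fun p => ¬ p ≤ z)) z (by omega) (by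
    intro p hp
    rw [mem_filter] at hp
    exact ⟨hA p hp.1, by omega⟩)
  obtain ⟨-, s2⟩ := hSQP (Pr z w) z (by omega) (by
    intro p hp
    simp only [Pr, mem_filter, mem_Ioc] at hp
    exact ⟨hp.2, hp.1.1⟩)
  have h3 : ∑ p ∈ n.primeFactors.filter (fun p => ¬ p ≤ z), 1 / (p : ℝ) =
      ∑ p ∈ n.primeFactors.filter (fun p => z < p ∧ p ≤ Y), 1 / (p : ℝ) +
      ∑ p ∈ n.primeFactors.filter (fun p => Y < p), 1 / (p : ℝ) := by
    rw [← Finset.sum_union]
    · apply Finset.sum_congr _ (fun _ _ => rfl)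
      ext p
      simp only [mem_filter, mem_union]
      constructor
      · rintro ⟨a, b⟩
        by_cases h : p ≤ Y
        · exact Or.inl ⟨a, by omega, h⟩
        · exact Or.inr ⟨a, by omega⟩
      · rintro (⟨a, b⟩ | ⟨a, b⟩)
        · exact ⟨a, by omega⟩
        · exact ⟨a, by omega⟩
    · rw [Finset.disjoint_left]
      intro p h1 h2
      rw [mem_filter] at h1 h2
      omega
  have h4 := hEXG n.primeFactors z w Y hA hz hzw hwY
  have h5 := hTAI n Y hn (by omega)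
  have h6 : ∑ p ∈ Pr z w, Real.log p = th w - th z := by
    unfold th
    rw [← hu, Finset.sum_union hd]
    ring
  have h7 : VP w = VP z * ∏ p ∈ Pr z w, (1 - 1 / (p : ℝ))⁻¹ := by
    unfold VP
    rw [← hu, Finset.prod_union hd]
  have hVz : 0 < VP z := Finset.prod_pos fun p hp =>
    lt_of_lt_of_le one_pos (CMP_one_le (by simp only [Pr, mem_filter] at hp; exact hp.2))
  rw [h6] at h4
  have h8 : ∑ p ∈ n.primeFactors.filter (fun p => ¬ p ≤ z), 1 / (p : ℝ) + 1 / z ≤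
      ∑ p ∈ Pr z w, 1 / (p : ℝ) + (1 / z + Real.log n / (Y * Real.log Y) +
        (T n z Y - (th w - th z)) / (w * Real.log w)) := by
    unfold T
    linarith
  rw [h1, h7]
  calc (∏ p ∈ n.primeFactors.filter (fun p => p ≤ z), (1 - 1 / (p : ℝ))⁻¹) *
      ∏ p ∈ n.primeFactors.filter (fun p => ¬ p ≤ z), (1 - 1 / (p : ℝ))⁻¹
      ≤ VP z * Real.exp (∑ p ∈ Pr z w, 1 / (p : ℝ) + (1 / z + Real.log n / (Y * Real.log Y) +
        (T n z Y - (th w - th z)) / (w * Real.log w))) := by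
        apply mul_le_mul h2 (s1.trans (Real.exp_le_exp.mpr h8)) _ hVz.le
        apply Finset.prod_nonneg
        intro p hp
        rw [mem_filter] at hp
        exact le_trans zero_le_one (CMP_one_le (hA p hp.1))
    _ = VP z * Real.exp (∑ p ∈ Pr z w, 1 / (p : ℝ)) * Real.exp (1 / z +
        Real.log n / (Y * Real.log Y) + (T n z Y - (th w - th z)) / (w * Real.log w)) := by
        rw [Real.exp_add]; ring
    _ ≤ VP z * (∏ p ∈ Pr z w, (1 - 1 / (p : ℝ))⁻¹) * Real.exp (1 / z +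
        Real.log n / (Y * Real.log Y) + (T n z Y - (th w - th z)) / (w * Real.log w)) := by
        gcongr

end Pool.GRO
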