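import Pool.Agent.Work.MP_495a89_gro.Interface

set_option autoImplicit false

/-! Block COR (helper34). -/

namespace Pool.GRO

open Finset

theorem p_COR (h1 : S_RES) : S_COR := by
  intro ε hε
  obtain ⟨N, hN⟩ := h1 (ε / 2) (by linarith)
  refine ⟨max N 2, fun n k hn hk => ?_⟩
  have hn1 : N ≤ n := le_trans (le_max_left _ _) hn
  have hn2 : 2 ≤ n := le_trans (le_max_right _ _) hn
  have hn0 : (0 : ℝ) < n := by
    have : 0 < n := by omega
    exact_mod_cast this
  have hlog : 0 < Real.log n := Real.log_pos (by exact_mod_cast (by omega : 1 < n))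
  have h := hN n hn1
  have hg : n.gcd (∑ d ∈ n.divisors, d) = n := by
    rw [hk]
    exact Nat.gcd_eq_left (Dvd.intro_left k rfl)
  have hs : (∑ d ∈ n.divisors, (d : ℝ)) = k * n := by
    have : ((∑ d ∈ n.divisors, d : ℕ) : ℝ) = ((k * n : ℕ) : ℝ) := by rw [hk]
    push_cast at this
    exact this
  rw [hg, hs] at h
  have e1 : (k : ℝ) * n / n = k := by field_simp
  have e2 : 1 - Real.log n / (2 * Real.log n) = 2⁻¹ := by
    field_simp
    norm_num
  rw [e1, e2, Real.log_inv] at h
  have hγ : 0 < Real.exp Real.eulerMascheroniConstant := Real.exp_pos _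
  have h' : (k : ℝ) ≤ Real.exp Real.eulerMascheroniConstant *
      (Real.log (Real.log n) - Real.log 2 + ε / 2) := by
    have e3 : Real.log (Real.log n) + -Real.log 2 + ε / 2 =
        Real.log (Real.log n) - Real.log 2 + ε / 2 := by ring
    rw [e3] at h
    exact h
  constructor
  · refine h'.trans (mul_le_mul_of_nonneg_left (by linarith) hγ.le)
  · have h3 : Real.exp (-Real.eulerMascheroniConstant) * k ≤
        Real.log (Real.log n) - Real.log 2 + ε / 2 := by
      have h4 := mul_le_mul_of_nonneg_left h' (Real.exp_pos (-Real.eulerMascheroniConstant)).le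
      rw [← mul_assoc, ← Real.exp_add, neg_add_cancel, Real.exp_zero, one_mul] at h4
      exact h4
    have h5 : Real.exp (Real.exp (-Real.eulerMascheroniConstant) * k) ≤
        Real.log n / 2 * Real.exp (ε / 2) := by
      refine (Real.exp_le_exp.2 h3).trans (le_of_eq ?_)
      rw [Real.exp_add, Real.exp_sub, Real.exp_log hlog, Real.exp_log (by norm_num)]
    by_cases hε2 : ε ≤ 2
    · have h6 : (1 - ε / 2) * Real.exp (ε / 2) ≤ 1 := by
        have h7 := Real.add_one_le_exp (-(ε / 2))
        have h8 : Real.exp (-(ε / 2)) * Real.exp (ε / 2) = 1 := by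
          rw [← Real.exp_add]
          simp
        rw [← h8]
        refine mul_le_mul_of_nonneg_right (by linarith) (Real.exp_pos _).le
      calc (2 - ε) * Real.exp (Real.exp (-Real.eulerMascheroniConstant) * k)
          ≤ (2 - ε) * (Real.log n / 2 * Real.exp (ε / 2)) :=
            mul_le_mul_of_nonneg_left h5 (by linarith)
        _ = Real.log n * ((1 - ε / 2) * Real.exp (ε / 2)) := by ring
        _ ≤ Real.log n * 1 := mul_le_mul_of_nonneg_left h6 hlog.le
        _ = Real.log n := mul_one _
    · have h9 : (2 - ε) * Real.exp (Real.exp (-Real.eulerMascheroniConstant) * k) ≤ 0 :=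
        mul_nonpos_of_nonpos_of_nonneg (by linarith) (Real.exp_pos _).le
      linarith

end Pool.GRO
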