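import Pool.Agent.Work.MP_495a89_gro.Interface

set_option autoImplicit false

namespace Pool.GRO

open Finset

open Classical in
theorem p_CST : S_CST := by
  intro n z Y hn
  have hn0 : n ≠ 0 := by omega
  have hlog : Real.log n = ∑ p ∈ n.primeFactors, (n.factorization p : ℝ) * Real.log p := by
    rw [Real.log_nat_eq_sum_factorization, Finsupp.sum, Nat.support_factorization]
  have hF0 : ∀ p : ℕ, 0 ≤ (n.factorization p : ℝ) * Real.log p := fun p =>
    mul_nonneg (Nat.cast_nonneg _) (Real.log_natCast_nonneg p)
  have hSP : SP n z = ∑ q ∈ n.primeFactors.filter (fun p => p ≤ z),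
      (n.factorization q : ℝ) * Real.log q := by
    unfold SP
    symm
    refine sum_subset ?_ ?_
    · intro q hq
      rw [mem_filter] at hq
      have hp : q.Prime := Nat.prime_of_mem_primeFactors hq.1
      simp only [Pr, mem_filter, mem_Ioc]
      exact ⟨⟨hp.pos, hq.2⟩, hp⟩
    · intro q hq hqB
      simp only [Pr, mem_filter, mem_Ioc] at hq
      have h1 : q ∉ n.primeFactors := by
        intro h
        exact hqB (mem_filter.2 ⟨h, hq.1.2⟩)
      have h2 : n.factorization q = 0 := by
        by_contra h
        apply h1
        rw [← Nat.support_factorization]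
        exact Finsupp.mem_support_iff.2 h
      rw [h2]
      simp
  have hTA : T n z Y + ∑ p ∈ n.primeFactors.filter
      (fun p => (z < p ∧ p ≤ Y) ∧ n.factorization p ≠ 1), Real.log p ≤
      ∑ p ∈ n.primeFactors.filter (fun p => z < p ∧ p ≤ Y),
        (n.factorization p : ℝ) * Real.log p := by
    have h1 : n.primeFactors.filter (fun p => (z < p ∧ p ≤ Y) ∧ n.factorization p ≠ 1) =
        (n.primeFactors.filter (fun p => z < p ∧ p ≤ Y)).filter
          (fun p => n.factorization p ≠ 1) := by
      ext p
      simp only [mem_filter]
      tauto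
    have h2 : ∑ p ∈ n.primeFactors.filter
      (fun p => (z < p ∧ p ≤ Y) ∧ n.factorization p ≠ 1), Real.log p =
        ∑ p ∈ n.primeFactors.filter (fun p => z < p ∧ p ≤ Y),
          if n.factorization p ≠ 1 then Real.log p else 0 := by
      rw [h1, sum_filter]
    rw [h2, T, ← sum_add_distrib]
    refine sum_le_sum fun p hp => ?_
    rw [mem_filter] at hp
    have hl : 0 ≤ Real.log (p : ℝ) := Real.log_natCast_nonneg p
    have hv0 : n.factorization p ≠ 0 := by
      have : p ∈ n.factorization.support := by
        rw [Nat.support_factorization]; exact hp.1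
      exact Finsupp.mem_support_iff.1 this
    by_cases h : n.factorization p = 1
    · rw [if_neg (by simpa using h), h]
      simp
    · rw [if_pos h]
      have h3 : (2 : ℝ) ≤ (n.factorization p : ℝ) := by
        exact_mod_cast (by omega : 2 ≤ n.factorization p)
      nlinarith
  have hdis : Disjoint (n.primeFactors.filter (fun p => z < p ∧ p ≤ Y))
      (n.primeFactors.filter (fun p => p ≤ z)) := by
    rw [Finset.disjoint_left]
    intro p hp hq
    rw [mem_filter] at hp hq
    omega
  have hsub : n.primeFactors.filter (fun p => z < p ∧ p ≤ Y) ∪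
      n.primeFactors.filter (fun p => p ≤ z) ⊆ n.primeFactors :=
    union_subset (filter_subset _ _) (filter_subset _ _)
  have hfin := sum_le_sum_of_subset_of_nonneg (f := fun p => (n.factorization p : ℝ) * Real.log p)
    hsub fun p _ _ => hF0 p
  rw [sum_union hdis] at hfin
  rw [hlog, hSP]
  linarith

end Pool.GRO
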