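import Pool.Agent.Work.MP_495a89_gro.Interface
import Pool.Agent.Work.MP_495a89_nm.S2

/-!
# Block EXC: few primes `p` have a large prime factor of `p + 1`
-/

set_option autoImplicit false

namespace Pool.GRO

open Finset

theorem EXC_card (C : ℝ) (hC : 0 < C)
    (hS : ∀ k X : ℕ, 1 ≤ k → 1 ≤ X →
      (((Icc 1 X).filter fun p => p.Prime ∧ (k * p - 1).Prime).card : ℝ) * Real.log X ^ 2 ≤
        C * X * (k / k.totient)) (M z Y : ℕ) (hM : 1 ≤ M) (hz : 2 ≤ z) (hY : Y ≤ M * z)
    (A : Finset ℕ) (hA : ∀ p ∈ A, (1 ≤ p ∧ p ≤ Y) ∧ p.Prime ∧ Big z p) :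
    (A.card : ℝ) * Real.log ((M * z + 1 : ℕ) : ℝ) ^ 2 ≤ M * (C * ((M * z + 1 : ℕ) : ℝ) * M) := by
  classical
  have hsub : A ⊆ (Icc 1 M).biUnion (fun m =>
      ((Icc 1 (M * z + 1)).filter (fun r => r.Prime ∧ (m * r - 1).Prime)).image
        (fun r => m * r - 1)) := by
    intro p hp
    obtain ⟨⟨hp1, hpY⟩, hpp, r, hr, hzr, m, hm⟩ := hA p hp
    have hm0 : 1 ≤ m := by
      rcases Nat.eq_zero_or_pos m with rfl | h
      · simp at hm
      · exact h
    have hmr : r * m ≤ M * z + 1 := by omega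
    have hmM : m ≤ M := by
      by_contra hcon
      have h1 : M + 1 ≤ m := by omega
      have h2 : (z + 1) * (M + 1) ≤ r * m := Nat.mul_le_mul (by omega) h1
      nlinarith
    have hrX : r ≤ M * z + 1 := (Nat.le_mul_of_pos_right r hm0).trans hmr
    have he : m * r - 1 = p := by
      rw [mul_comm m r, ← hm]
      omega
    rw [mem_biUnion]
    refine ⟨m, mem_Icc.2 ⟨hm0, hmM⟩, ?_⟩
    rw [mem_image]
    refine ⟨r, mem_filter.2 ⟨mem_Icc.2 ⟨hr.one_lt.le, hrX⟩, hr, ?_⟩, he⟩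
    rw [he]
    exact hpp
  have hcard : A.card ≤ ∑ m ∈ Icc 1 M,
      ((Icc 1 (M * z + 1)).filter (fun r => r.Prime ∧ (m * r - 1).Prime)).card :=
    (card_le_card hsub).trans (card_biUnion_le.trans (sum_le_sum fun m _ => card_image_le))
  have hcardR : (A.card : ℝ) ≤ ∑ m ∈ Icc 1 M,
      (((Icc 1 (M * z + 1)).filter (fun r => r.Prime ∧ (m * r - 1).Prime)).card : ℝ) := by
    exact_mod_cast hcard
  have hL : 0 ≤ Real.log ((M * z + 1 : ℕ) : ℝ) ^ 2 := sq_nonneg _
  calc (A.card : ℝ) * Real.log ((M * z + 1 : ℕ) : ℝ) ^ 2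
      ≤ (∑ m ∈ Icc 1 M,
        (((Icc 1 (M * z + 1)).filter (fun r => r.Prime ∧ (m * r - 1).Prime)).card : ℝ)) *
          Real.log ((M * z + 1 : ℕ) : ℝ) ^ 2 := mul_le_mul_of_nonneg_right hcardR hL
    _ = ∑ m ∈ Icc 1 M,
        (((Icc 1 (M * z + 1)).filter (fun r => r.Prime ∧ (m * r - 1).Prime)).card : ℝ) *
          Real.log ((M * z + 1 : ℕ) : ℝ) ^ 2 := sum_mul _ _ _
    _ ≤ ∑ m ∈ Icc 1 M, C * ((M * z + 1 : ℕ) : ℝ) * M := by
        refine sum_le_sum fun m hm => ?_
        rw [mem_Icc] at hm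
        refine (hS m (M * z + 1) hm.1 (by omega)).trans ?_
        have htot : (1 : ℝ) ≤ (m.totient : ℝ) := by
          exact_mod_cast Nat.totient_pos.2 (by omega)
        have hmM : (m : ℝ) ≤ M := by exact_mod_cast hm.2
        have hdiv : (m : ℝ) / m.totient ≤ M :=
          (div_le_self (by positivity) htot).trans hmM
        exact mul_le_mul_of_nonneg_left hdiv (by positivity)
    _ = M * (C * ((M * z + 1 : ℕ) : ℝ) * M) := by
        rw [sum_const, Nat.card_Icc, nsmul_eq_mul]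
        simp

theorem p_EXC : S_EXC := by
  classical
  intro M δ hδ
  obtain ⟨C, hC, hS⟩ := Pool.Agent.Work.MP_495a89_nm.stmt_S2
  rcases Nat.eq_zero_or_pos M with rfl | hM
  · refine ⟨0, fun z Y _ hY => ?_⟩
    have hY0 : Y = 0 := by simpa using hY
    subst hY0
    have h0 : EX z 0 = 0 := by
      unfold EX
      simp
    rw [h0]
    positivity
  obtain ⟨z0, hz0⟩ := Filter.eventually_atTop.1
    (((Real.tendsto_log_atTop.comp tendsto_natCast_atTop_atTop).eventually_ge_atTop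
      (2 * M ^ 3 * C / δ)).and (Filter.eventually_ge_atTop (2 : ℕ)))
  refine ⟨z0, fun z Y hz hY => ?_⟩
  obtain ⟨hlog, hz2⟩ := hz0 z hz
  simp only [Function.comp] at hlog
  have hzr : (2 : ℝ) ≤ z := by exact_mod_cast hz2
  have hMr : (1 : ℝ) ≤ M := by exact_mod_cast hM
  set X : ℝ := ((M * z + 1 : ℕ) : ℝ) with hX
  have hXe : X = M * z + 1 := by rw [hX]; push_cast; ring
  have hzX : (z : ℝ) ≤ X := by rw [hXe]; nlinarith
  have hXle : X ≤ 2 * M * z := by rw [hXe]; nlinarith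
  have hlogX : Real.log z ≤ Real.log X := Real.log_le_log (by linarith) hzX
  have hlogz : 0 < Real.log z := Real.log_pos (by linarith)
  have hlogX0 : 0 < Real.log X := by linarith
  have hkey : ∀ A : Finset ℕ, (∀ p ∈ A, (1 ≤ p ∧ p ≤ Y) ∧ p.Prime ∧ Big z p) →
      ∑ p ∈ A, Real.log p ≤ δ * z := by
    intro A hA
    have h1 := EXC_card C hC hS M z Y hM hz2 hY A hA
    rw [← hX] at h1
    have h2 : ∑ p ∈ A, Real.log p ≤ A.card * Real.log X := by
      rw [← nsmul_eq_mul]
      refine sum_le_card_nsmul _ _ _ fun p hp => ?_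
      obtain ⟨⟨hp1, hpY⟩, -, -⟩ := hA p hp
      refine Real.log_le_log (by exact_mod_cast hp1) ?_
      rw [hX]
      exact_mod_cast (hpY.trans hY).trans (Nat.le_succ _)
    have h3 : (A.card * Real.log X) * Real.log X ≤ (δ * z) * Real.log X := by
      calc (A.card * Real.log X) * Real.log X = A.card * Real.log X ^ 2 := by ring
        _ ≤ M * (C * X * M) := h1
        _ ≤ M * (C * (2 * M * z) * M) := by gcongr
        _ = 2 * M ^ 3 * C * z := by ring
        _ ≤ (δ * Real.log z) * z := by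
            rw [div_le_iff₀ hδ] at hlog
            refine mul_le_mul_of_nonneg_right ?_ (by linarith)
            linarith
        _ ≤ (δ * Real.log X) * z := by gcongr
        _ = (δ * z) * Real.log X := by ring
    have h4 : A.card * Real.log X ≤ δ * z := le_of_mul_le_mul_right h3 hlogX0
    exact h2.trans h4
  unfold EX
  refine hkey _ fun p hp => ?_
  rw [mem_filter, mem_Icc] at hp
  exact hp

end Pool.GRO
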