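import Pool.Agent.Work.MP_495a89_gro.Interface

set_option autoImplicit false

namespace Pool.GRO

open Finset

theorem EXG_mono (a b : ℕ) (ha : 1 ≤ a) (hab : a ≤ b) :
    (a : ℝ) * Real.log a ≤ b * Real.log b := by
  have h1 : (1 : ℝ) ≤ a := by exact_mod_cast ha
  have h2 : (a : ℝ) ≤ b := by exact_mod_cast hab
  have h3 : Real.log a ≤ Real.log b := Real.log_le_log (by linarith) h2
  have h4 : 0 ≤ Real.log a := Real.log_nonneg h1
  exact mul_le_mul h2 h3 h4 (by linarith)

theorem p_EXG : S_EXG := by
  intro P z w Y hP hz hzw hwY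
  have hw2 : (2 : ℝ) ≤ w := by exact_mod_cast hz.trans hzw
  have hlw : 0 < Real.log w := Real.log_pos (by linarith)
  have hwl : 0 < (w : ℝ) * Real.log w := by positivity
  set A := P.filter (fun p => z < p ∧ p ≤ Y) with hA
  have key : ∑ p ∈ A, (1 / (p : ℝ) - Real.log p / (w * Real.log w)) ≤
      ∑ p ∈ Pr z w, (1 / (p : ℝ) - Real.log p / (w * Real.log w)) := by
    calc ∑ p ∈ A, (1 / (p : ℝ) - Real.log p / (w * Real.log w))
        = ∑ p ∈ A.filter (fun p => p ≤ w), (1 / (p : ℝ) - Real.log p / (w * Real.log w)) +
          ∑ p ∈ A.filter (fun p => ¬ p ≤ w), (1 / (p : ℝ) - Real.log p / (w * Real.log w)) :=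
          (Finset.sum_filter_add_sum_filter_not A (fun p => p ≤ w) _).symm
      _ ≤ ∑ p ∈ A.filter (fun p => p ≤ w), (1 / (p : ℝ) - Real.log p / (w * Real.log w)) + 0 := by
          refine add_le_add le_rfl (Finset.sum_nonpos fun p hp => ?_)
          rw [Finset.mem_filter] at hp
          have h1 : w ≤ p := by omega
          have h2 : (0 : ℝ) < p := by
            have : 0 < p := by omega
            exact_mod_cast this
          have h3 := EXG_mono w p (by omega) h1
          rw [sub_nonpos, div_le_div_iff₀ h2 hwl]
          nlinarith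
      _ = ∑ p ∈ A.filter (fun p => p ≤ w), (1 / (p : ℝ) - Real.log p / (w * Real.log w)) :=
          add_zero _
      _ ≤ ∑ p ∈ Pr z w, (1 / (p : ℝ) - Real.log p / (w * Real.log w)) := by
          refine Finset.sum_le_sum_of_subset_of_nonneg ?_ ?_
          · intro p hp
            simp only [hA, Finset.mem_filter] at hp
            simp only [Pr, Finset.mem_filter, Finset.mem_Ioc]
            exact ⟨⟨hp.1.2.1, hp.2⟩, hP p hp.1.1⟩
          · intro p hp _
            simp only [Pr, Finset.mem_filter, Finset.mem_Ioc] at hp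
            have h2 : (0 : ℝ) < p := by
              have : 0 < p := by omega
              exact_mod_cast this
            have h3 := EXG_mono p w (by omega) hp.1.2
            rw [sub_nonneg, div_le_div_iff₀ hwl h2]
            nlinarith
  rw [Finset.sum_sub_distrib, Finset.sum_sub_distrib, ← Finset.sum_div, ← Finset.sum_div] at key
  rw [sub_div]
  linarith

end Pool.GRO
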