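import Pool.Agent.Work.MP_495a89_gro.Interface

/-!
# Block FLO
-/

set_option autoImplicit false

namespace Pool.GRO

open Finset

theorem FLO_key (s : Finset ℕ) (f : ℕ → ℝ) (A V B : ℕ → Prop)
    (d1 : DecidablePred A) (d2 : DecidablePred fun p => A p ∧ ¬ V p)
    (d3 : DecidablePred fun p => A p ∧ V p ∧ ¬ B p)
    (d4 : DecidablePred fun p => A p ∧ V p ∧ B p) :
    ∑ p ∈ s.filter A, f p = ∑ p ∈ s.filter (fun p => A p ∧ ¬ V p), f p +
      ∑ p ∈ s.filter (fun p => A p ∧ V p ∧ ¬ B p), f p +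
      ∑ p ∈ s.filter (fun p => A p ∧ V p ∧ B p), f p := by
  simp only [sum_filter]
  rw [← sum_add_distrib, ← sum_add_distrib]
  refine sum_congr rfl fun p _ => ?_
  by_cases h1 : A p <;> by_cases h2 : V p <;> by_cases h3 : B p <;> simp [h1, h2, h3]

open Classical in
theorem p_FLO (h1 : S_FLW) (h2 : S_ONE) (h3 : S_CST) : S_FLO := by
  intro n z Y hn
  have hF := h1 n z hn
  have hO := h2 n z Y hn
  have hC := h3 n z Y hn
  have hT : T n z Y =
      ∑ p ∈ n.primeFactors.filter (fun p => (z < p ∧ p ≤ Y) ∧ n.factorization p ≠ 1),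
        Real.log p +
      ∑ p ∈ n.primeFactors.filter
        (fun p => (z < p ∧ p ≤ Y) ∧ n.factorization p = 1 ∧ ¬ Big z p), Real.log p +
      ∑ p ∈ n.primeFactors.filter
        (fun p => (z < p ∧ p ≤ Y) ∧ n.factorization p = 1 ∧ Big z p), Real.log p :=
    FLO_key n.primeFactors (fun p => Real.log p) (fun p => z < p ∧ p ≤ Y)
      (fun p => n.factorization p = 1) (Big z) _ _ _ _
  have hE : ∑ p ∈ n.primeFactors.filter
        (fun p => (z < p ∧ p ≤ Y) ∧ n.factorization p = 1 ∧ Big z p), Real.log p ≤ EX z Y := by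
    unfold EX
    refine sum_le_sum_of_subset_of_nonneg ?_ fun p _ _ => Real.log_natCast_nonneg p
    intro p hp
    rw [mem_filter] at hp ⊢
    obtain ⟨hp1, ⟨hp2, hp3⟩, _, hp4⟩ := hp
    have hpp := Nat.prime_of_mem_primeFactors hp1
    exact ⟨mem_Icc.mpr ⟨hpp.one_lt.le, hp3⟩, hpp, hp4⟩
  linarith

end Pool.GRO
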