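import Pool.Agent.Work.MP_495a89_gro.Interface

/-! MP_495a89_gro, block FLW (helper60). -/

set_option autoImplicit false

namespace Pool.GRO

open Finset

theorem FLW_SP_le (a z : ℕ) (ha : a ≠ 0) : SP a z ≤ Real.log a := by
  have hn : ∀ q : ℕ, 0 ≤ (a.factorization q : ℝ) * Real.log q := fun q =>
    mul_nonneg (Nat.cast_nonneg _) (Real.log_natCast_nonneg q)
  have h1 : Real.log a = ∑ q ∈ a.factorization.support, (a.factorization q : ℝ) * Real.log q :=
    Real.log_nat_eq_sum_factorization a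
  have h2 : SP a z = ∑ q ∈ (Pr 0 z).filter (fun q => q ∈ a.factorization.support),
      (a.factorization q : ℝ) * Real.log q := by
    unfold SP
    refine (Finset.sum_filter_of_ne fun q _ hq => ?_).symm
    rw [Finsupp.mem_support_iff]
    intro h
    exact hq (by rw [h]; simp)
  rw [h1, h2]
  refine Finset.sum_le_sum_of_subset_of_nonneg (fun q hq => (mem_filter.1 hq).2) fun q _ _ => hn q

theorem p_FLW : S_FLW := by
  intro n z hn
  have hn0 : n ≠ 0 := by omega
  have hs0 : sg n ≠ 0 := by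
    have : 1 ≤ sg n := by
      unfold sg
      exact hn.trans (Finset.single_le_sum (f := fun d : ℕ => d) (fun _ _ => Nat.zero_le _)
        (Nat.mem_divisors_self n hn0))
    omega
  obtain ⟨g, hg⟩ : ∃ g, g = n.gcd (sg n) := ⟨_, rfl⟩
  have hgn : g ∣ n := hg ▸ Nat.gcd_dvd_left _ _
  have hg0 : g ≠ 0 := fun h => hn0 (Nat.eq_zero_of_zero_dvd (h ▸ hgn))
  obtain ⟨a, ha⟩ : g ∣ sg n := hg ▸ Nat.gcd_dvd_right _ _
  have ha0 : a ≠ 0 := by
    rintro rfl
    exact hs0 (by rw [ha, mul_zero])
  have h1 : Real.log (sg n) - Real.log g = Real.log a := by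
    rw [ha, Nat.cast_mul, Real.log_mul (Nat.cast_ne_zero.2 hg0) (Nat.cast_ne_zero.2 ha0)]
    ring
  have h2 : SP (sg n) z = SP g z + SP a z := by
    unfold SP
    rw [← Finset.sum_add_distrib]
    refine Finset.sum_congr rfl fun q _ => ?_
    rw [ha, Nat.factorization_mul hg0 ha0, Finsupp.add_apply, Nat.cast_add, add_mul]
  have h3 : SP g z ≤ SP n z := by
    unfold SP
    refine Finset.sum_le_sum fun q _ => ?_
    refine mul_le_mul_of_nonneg_right ?_ (Real.log_natCast_nonneg q)
    exact_mod_cast (Nat.factorization_le_iff_dvd hg0 hn0).2 hgn q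
  rw [← hg, h1, h2]
  linarith [FLW_SP_le a z ha0]

end Pool.GRO
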