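import Pool.Agent.Work.MP_495a89_gro.Interface

/-! # Block FNA -/

set_option autoImplicit false

namespace Pool.GRO

open Finset Filter

lemma FNA_log (δ : ℝ) (hδ : 0 < δ) : ∃ X : ℝ, ∀ x : ℝ, X ≤ x → Real.log x ≤ δ * x := by
  have h := Real.isLittleO_log_id_atTop.def hδ
  obtain ⟨X, hX⟩ := eventually_atTop.mp h
  refine ⟨max X 0, fun x hx => ?_⟩
  have h1 := hX x (le_trans (le_max_left _ _) hx)
  have hx0 : 0 ≤ x := le_trans (le_max_right _ _) hx
  simp only [id, Real.norm_eq_abs, abs_of_nonneg hx0] at h1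
  exact le_trans (le_abs_self _) h1

lemma FNA_one (C δ : ℝ) (hδ : 0 < δ) : ∃ K : ℕ, ∀ t : ℕ, K ≤ t → C / Real.log t ^ 2 ≤ δ := by
  have h1 : Tendsto (fun t : ℕ => Real.log t ^ 2) atTop atTop :=
    (tendsto_pow_atTop two_ne_zero).comp (Real.tendsto_log_atTop.comp tendsto_natCast_atTop_atTop)
  have h2 : Tendsto (fun t : ℕ => C / Real.log t ^ 2) atTop (nhds 0) :=
    h1.const_div_atTop C
  have h3 := h2.eventually (ge_mem_nhds hδ)
  exact eventually_atTop.mp h3

lemma FNA_exp {t : ℝ} (h0 : 0 ≤ t) (h1 : t ≤ 1) : Real.exp t ≤ 1 + 2 * t := by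
  have h := Real.abs_exp_sub_one_le (x := t) (by rw [abs_of_nonneg h0]; exact h1)
  rw [abs_of_nonneg h0] at h
  have := (abs_le.mp h).2
  linarith

theorem p_FNA (h1 : S_AUP) (h2 : S_SGU) (h3 : S_M3S) (h4 : S_FLO) (h5 : S_EXC) (h6 : S_CMP)
    (h7 : S_TH2) : S_FNA := by
  intro ε hε
  set δ : ℝ := min ε 1 / 1000 with hδdef
  have hm0 : 0 < min ε 1 := lt_min hε one_pos
  have hδ0 : 0 < δ := by positivity
  have hδ1 : δ ≤ 1 / 1000 := by
    have : min ε 1 ≤ 1 := min_le_right _ _
    rw [hδdef]; linarith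
  have hδε : 1000 * δ ≤ ε := by
    have : min ε 1 ≤ ε := min_le_left _ _
    rw [hδdef]; linarith
  obtain ⟨C, hC0, hC⟩ := h7
  obtain ⟨w0, hw0⟩ := h3 δ hδ0
  obtain ⟨z0, hz0⟩ := h5 ⌈4 / δ ^ 2⌉₊ δ hδ0
  obtain ⟨K1, hK1⟩ := FNA_one C δ hδ0
  obtain ⟨X1, hX1⟩ := FNA_log (δ ^ 2 / 2) (by positivity)
  set K : ℕ := w0 + z0 + K1 + 2 with hK
  set X0 : ℝ := max (max X1 9) ((K + 2) / δ) with hX0
  refine ⟨⌈Real.exp X0⌉₊, fun n hn => ?_⟩
  -- basic facts on x
  have hn1 : Real.exp X0 ≤ n := le_trans (Nat.le_ceil _) (by exact_mod_cast hn)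
  have hnpos : (0 : ℝ) < n := lt_of_lt_of_le (Real.exp_pos _) hn1
  have hn1' : 1 ≤ n := by exact_mod_cast Nat.pos_of_ne_zero (by rintro rfl; simp at hnpos)
  set x : ℝ := Real.log n with hx
  have hxX : X0 ≤ x := by
    rw [hx, Real.le_log_iff_exp_le hnpos]; exact hn1
  have hxX1 : X1 ≤ x := le_trans (le_trans (le_max_left _ _) (le_max_left _ _)) hxX
  have hx9 : 9 ≤ x := le_trans (le_trans (le_max_right _ _) (le_max_left _ _)) hxX
  have hxK : (K + 2 : ℝ) ≤ δ * x := by
    have h : ((K : ℝ) + 2) / δ ≤ x := le_trans (le_max_right _ _) hxX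
    rw [div_le_iff₀ hδ0] at h
    linarith
  have hx0 : 0 < x := by linarith
  have hlogx1 : 1 ≤ Real.log x := by
    rw [Real.le_log_iff_exp_le hx0]
    have := Real.exp_one_lt_d9
    linarith
  -- the quantities
  have hsg1 : 1 ≤ sg n := by
    unfold sg
    have : 1 ∈ n.divisors := by
      rw [Nat.mem_divisors]; exact ⟨one_dvd _, by omega⟩
    exact Finset.single_le_sum (f := fun d => d) (fun i _ => Nat.zero_le i) this
  have hsgR : (0 : ℝ) < sg n := by exact_mod_cast hsg1
  have hg1 : 1 ≤ n.gcd (sg n) := Nat.gcd_pos_of_pos_left _ hn1'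
  have hgR : (0 : ℝ) < (n.gcd (sg n) : ℕ) := by exact_mod_cast hg1
  set s : ℝ := Real.log (sg n) - Real.log (n.gcd (sg n)) with hs
  have hs0 : 0 ≤ s := by
    have hle : n.gcd (sg n) ≤ sg n := Nat.le_of_dvd hsg1 (Nat.gcd_dvd_right _ _)
    have : Real.log (n.gcd (sg n)) ≤ Real.log (sg n) :=
      Real.log_le_log hgR (by exact_mod_cast hle)
    rw [hs]; linarith
  have hs1 : s ≤ 2 * x := by
    have ha := h2 n hn1'
    have hb : Real.log (sg n) ≤ Real.log (n * (1 + x)) := Real.log_le_log hsgR ha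
    rw [Real.log_mul hnpos.ne' (by positivity)] at hb
    have hc : Real.log (1 + x) ≤ x := by
      have := Real.log_le_sub_one_of_pos (x := 1 + x) (by linarith)
      linarith
    have hd : 0 ≤ Real.log (n.gcd (sg n)) := Real.log_nonneg (by exact_mod_cast hg1)
    rw [hs]
    have : Real.log (sg n) ≤ x + x := le_trans hb (by linarith)
    linarith
  set W : ℝ := (x + s) / 2 with hW
  have hW1 : x / 2 ≤ W := by rw [hW]; linarith
  have hW2 : W ≤ 3 * x / 2 := by rw [hW]; linarith
  have hW0 : 0 ≤ W := by linarith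
  set z : ℕ := ⌊δ * x⌋₊ with hz
  set w : ℕ := ⌊W⌋₊ with hw
  set Y : ℕ := ⌈x / δ⌉₊ with hY
  have hδx0 : 0 ≤ δ * x := by positivity
  have hz1 : (z : ℝ) ≤ δ * x := Nat.floor_le hδx0
  have hz2 : δ * x < z + 1 := Nat.lt_floor_add_one _
  have hw1 : (w : ℝ) ≤ W := Nat.floor_le hW0
  have hw2 : W < w + 1 := Nat.lt_floor_add_one _
  have hY1 : x / δ ≤ Y := Nat.le_ceil _
  have hY2 : (Y : ℝ) < x / δ + 1 := Nat.ceil_lt_add_one (by positivity)
  have hKz : K + 1 ≤ z := by
    rw [hz]; apply Nat.le_floor; push_cast; linarith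
  have hKR : (0 : ℝ) ≤ K := Nat.cast_nonneg _
  have hzR : (K : ℝ) + 1 ≤ z := by exact_mod_cast hKz
  have hzhalf : δ * x / 2 ≤ z := by
    have : (2 : ℝ) ≤ K := by rw [hK]; push_cast; linarith [Nat.cast_nonneg (α := ℝ) w0, Nat.cast_nonneg (α := ℝ) z0, Nat.cast_nonneg (α := ℝ) K1]
    linarith
  have hz2' : 2 ≤ z := by omega
  have hzw : z ≤ w := by
    rw [hw]; apply Nat.le_floor
    have : δ * x ≤ 1 / 1000 * x := mul_le_mul_of_nonneg_right hδ1 hx0.le
    linarith
  have hwR : (z : ℝ) ≤ w := by exact_mod_cast hzw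
  have hxδ : 1000 * x ≤ x / δ := by
    rw [le_div_iff₀ hδ0]
    have : δ * (1000 * x) ≤ 1 / 1000 * (1000 * x) :=
      mul_le_mul_of_nonneg_right hδ1 (by linarith)
    linarith
  have hwY : w ≤ Y := by
    have : (w : ℝ) ≤ Y := by linarith
    exact_mod_cast this
  have hw3 : x / 3 ≤ w := by linarith
  -- T
  have hEX : EX z Y ≤ δ * z := by
    apply hz0 z Y (by omega)
    have hM : (4 / δ ^ 2 : ℝ) ≤ (⌈4 / δ ^ 2⌉₊ : ℕ) := Nat.le_ceil _
    have : (Y : ℝ) ≤ (⌈4 / δ ^ 2⌉₊ : ℕ) * z := by
      calc (Y : ℝ) ≤ x / δ + 1 := hY2.le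
        _ ≤ 2 * (x / δ) := by linarith
        _ = (4 / δ ^ 2) * (δ * x / 2) := by field_simp; ring
        _ ≤ (⌈4 / δ ^ 2⌉₊ : ℕ) * z := by
            apply mul_le_mul hM hzhalf (by positivity) (Nat.cast_nonneg _)
    exact_mod_cast this
  have hT : T n z Y ≤ W + δ * x := by
    have ha := h4 n z Y hn1'
    have hb : δ * z ≤ δ * x := by
      have h0 : δ * x ≤ 1 * x := mul_le_mul_of_nonneg_right (by linarith) hx0.le
      have : (z : ℝ) ≤ x := by linarith
      exact mul_le_mul_of_nonneg_left this hδ0.le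
    have : 2 * T n z Y ≤ x + s + EX z Y := ha
    rw [hW]
    linarith
  -- theta
  have hthw : (w : ℝ) - δ * w ≤ th w := by
    have ha := (abs_le.mp (hC w (by omega))).1
    have hb := hK1 w (by omega)
    have hc : C * w / Real.log w ^ 2 ≤ δ * w := by
      have : C * w / Real.log w ^ 2 = C / Real.log w ^ 2 * w := by ring
      rw [this]
      exact mul_le_mul_of_nonneg_right hb (Nat.cast_nonneg _)
    linarith
  have hthz : th z ≤ 2 * z := by
    have ha := (abs_le.mp (hC z (by omega))).2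
    have hb := hK1 z (by omega)
    have hc : C * z / Real.log z ^ 2 ≤ δ * z := by
      have : C * z / Real.log z ^ 2 = C / Real.log z ^ 2 * z := by ring
      rw [this]
      exact mul_le_mul_of_nonneg_right hb (Nat.cast_nonneg _)
    have hd : δ * z ≤ 1 * z := mul_le_mul_of_nonneg_right (by linarith) (Nat.cast_nonneg z)
    linarith
  have hnum : T n z Y - (th w - th z) ≤ 6 * (δ * x) := by
    have ha : δ * w ≤ 3 / 2 * (δ * x) := by
      have : (w : ℝ) ≤ 3 * x / 2 := by linarith
      have h0 : δ * w ≤ δ * (3 * x / 2) := mul_le_mul_of_nonneg_left this hδ0.le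
      linarith
    have hb : (1 : ℝ) ≤ δ * x := by linarith
    linarith
  -- logs
  have hwpos : (0 : ℝ) < w := by linarith
  have hlogw : Real.log x / 2 ≤ Real.log w := by
    have ha : Real.log (x / 3) ≤ Real.log w := Real.log_le_log (by positivity) hw3
    have hb : Real.log x / 2 ≤ Real.log (x / 3) := by
      rw [Real.log_div hx0.ne' (by norm_num)]
      have hc : Real.log 3 ≤ Real.log x / 2 := by
        have hd : Real.log 9 ≤ Real.log x := Real.log_le_log (by norm_num) hx9
        have he : Real.log 9 = 2 * Real.log 3 := by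
          rw [show (9 : ℝ) = 3 ^ 2 by norm_num, Real.log_pow]; norm_num
        linarith
      linarith
    linarith
  have hden : x * Real.log x / 6 ≤ w * Real.log w := by
    have : x / 3 * (Real.log x / 2) ≤ w * Real.log w :=
      mul_le_mul hw3 hlogw (by linarith) hwpos.le
    linarith
  have hE3 : (T n z Y - (th w - th z)) / (w * Real.log w) ≤ 36 * δ / Real.log x := by
    have hd0 : 0 < x * Real.log x / 6 := by positivity
    have hd1 : 0 < w * Real.log w := lt_of_lt_of_le hd0 hden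
    calc (T n z Y - (th w - th z)) / (w * Real.log w)
        ≤ 6 * (δ * x) / (w * Real.log w) := by gcongr
      _ ≤ 6 * (δ * x) / (x * Real.log x / 6) := by gcongr
      _ = 36 * δ / Real.log x := by field_simp; ring
  have hE2 : Real.log n / (Y * Real.log Y) ≤ δ / Real.log x := by
    have hYx : x ≤ Y := by linarith
    have ha : Real.log x ≤ Real.log Y := Real.log_le_log hx0 hYx
    have hb : x / δ * Real.log x ≤ Y * Real.log Y :=
      mul_le_mul hY1 ha (by linarith) (Nat.cast_nonneg _)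
    have hc : 0 < x / δ * Real.log x := by positivity
    calc Real.log n / (Y * Real.log Y) ≤ Real.log n / (x / δ * Real.log x) := by
          gcongr
      _ = x / (x / δ * Real.log x) := by rw [hx]
      _ = δ / Real.log x := by field_simp
  have hE1 : 1 / (z : ℝ) ≤ δ / Real.log x := by
    have ha := hX1 x hxX1
    have hzpos : (0 : ℝ) < z := by linarith
    rw [div_le_div_iff₀ hzpos (by linarith)]
    have hb := mul_le_mul_of_nonneg_left hzhalf hδ0.le
    have hc : δ * (δ * x / 2) = δ ^ 2 / 2 * x := by ring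
    linarith
  set E : ℝ := 1 / z + Real.log n / (Y * Real.log Y) +
      (T n z Y - (th w - th z)) / (w * Real.log w) with hE
  have hEle : E ≤ 38 * δ / Real.log x := by
    have : 38 * δ / Real.log x = δ / Real.log x + δ / Real.log x + 36 * δ / Real.log x := by ring
    rw [hE]; linarith
  have hE1' : 38 * δ / Real.log x ≤ 1 := by
    rw [div_le_one (by linarith)]; linarith
  have hE0' : 0 ≤ 38 * δ / Real.log x := by positivity
  have hexp : Real.exp E ≤ 1 + 76 * δ / Real.log x := by
    calc Real.exp E ≤ Real.exp (38 * δ / Real.log x) := Real.exp_le_exp.mpr hEle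
      _ ≤ 1 + 2 * (38 * δ / Real.log x) := FNA_exp hE0' hE1'
      _ = 1 + 76 * δ / Real.log x := by ring
  -- final
  have hVP := hw0 w (by omega)
  have hlogwW : Real.log w ≤ Real.log W := Real.log_le_log hwpos hw1
  have hlogW3 : Real.log W ≤ 2 * Real.log x := by
    have ha : Real.log W ≤ Real.log (x * x) := by
      apply Real.log_le_log (by linarith)
      nlinarith
    rw [Real.log_mul hx0.ne' hx0.ne'] at ha
    linarith
  have hlw0 : 0 ≤ Real.log w := by linarith
  have hG : 0 < Real.exp Real.eulerMascheroniConstant := Real.exp_pos _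
  have hVP2 : VP w ≤ Real.exp Real.eulerMascheroniConstant * (Real.log W + δ) := by
    refine hVP.trans ?_
    gcongr
  have hkey : (Real.log W + δ) * (1 + 76 * δ / Real.log x) ≤ Real.log W + ε := by
    have ha : Real.log W + δ ≤ 3 * Real.log x := by linarith
    have hb : 0 ≤ 76 * δ / Real.log x := by positivity
    have hc : (Real.log W + δ) * (76 * δ / Real.log x) ≤ 3 * Real.log x * (76 * δ / Real.log x) :=
      mul_le_mul_of_nonneg_right ha hb
    have hd : 3 * Real.log x * (76 * δ / Real.log x) = 228 * δ := by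
      have : Real.log x ≠ 0 := by linarith
      field_simp; ring
    rw [hd] at hc
    have : (Real.log W + δ) * (1 + 76 * δ / Real.log x) =
      Real.log W + δ + (Real.log W + δ) * (76 * δ / Real.log x) := by ring
    rw [this]; linarith
  calc (sg n : ℝ) / n ≤ ∏ p ∈ n.primeFactors, (1 - 1 / (p : ℝ))⁻¹ := h1 n hn1'
    _ ≤ VP w * Real.exp E := h6 n z w Y hn1' hz2' hzw hwY
    _ ≤ (Real.exp Real.eulerMascheroniConstant * (Real.log W + δ)) *
          (1 + 76 * δ / Real.log x) := by
        apply mul_le_mul hVP2 hexp (Real.exp_pos _).le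
        apply mul_nonneg hG.le
        linarith
    _ = Real.exp Real.eulerMascheroniConstant *
          ((Real.log W + δ) * (1 + 76 * δ / Real.log x)) := by ring
    _ ≤ Real.exp Real.eulerMascheroniConstant * (Real.log W + ε) :=
        mul_le_mul_of_nonneg_left hkey hG.le

end Pool.GRO
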