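import Pool.Agent.Work.MP_495a89_gro.Interface
import Pool.Agent.Work.MP_495a89_h72.M3

/-!
# Block M3S (helper72), without hypotheses
-/

set_option autoImplicit false

namespace Pool.GRO

open Finset

theorem p_M3Sx : S_M3S := by
  intro ε hε
  obtain ⟨w0, h⟩ := Pool.M3.m3 (Real.exp Real.eulerMascheroniConstant * ε)
    (mul_pos (Real.exp_pos _) hε)
  refine ⟨w0, fun w hw => ?_⟩
  have h1 := h w hw
  unfold VP Pr
  calc _ ≤ _ := h1
    _ = _ := by ring

end Pool.GRO
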