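import Pool.Agent.Work.MP_495a89_gro.Interface

/-!
# Block ONE: the primes `p ‖ n` with `z`-smooth `p + 1`
-/

set_option autoImplicit false

namespace Pool.GRO

open Finset

theorem ONE_aux (n z : ℕ) (hn : 1 ≤ n) (F : Finset ℕ)
    (hF : ∀ p ∈ F, p ∈ n.primeFactors ∧ n.factorization p = 1 ∧ ¬ Big z p) :
    ∑ p ∈ F, Real.log p ≤ SP (sg n) z := by
  classical
  have hn0 : n ≠ 0 := by omega
  have hsg : sg n = ∏ p ∈ n.primeFactors, ∑ k ∈ range (n.factorization p + 1), p ^ k := by
    unfold sg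
    exact Nat.sum_divisors hn0
  have hsub : F ⊆ n.primeFactors := fun p hp => (hF p hp).1
  have hD : ∏ p ∈ F, (p + 1) ∣ sg n := by
    rw [hsg]
    have h1 : ∏ p ∈ F, (p + 1) = ∏ p ∈ F, ∑ k ∈ range (n.factorization p + 1), p ^ k := by
      refine prod_congr rfl fun p hp => ?_
      rw [(hF p hp).2.1, sum_range_succ, sum_range_one, pow_zero, pow_one]
      ring
    rw [h1]
    exact prod_dvd_prod_of_subset _ _ _ hsub
  have hsg0 : sg n ≠ 0 := by
    unfold sg
    have h2 : n ≤ ∑ d ∈ n.divisors, d :=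
      Finset.single_le_sum (f := fun d : ℕ => d) (fun _ _ => Nat.zero_le _)
        (Nat.mem_divisors_self n hn0)
    omega
  obtain ⟨D, hDd⟩ : ∃ D, D = ∏ p ∈ F, (p + 1) := ⟨_, rfl⟩
  rw [← hDd] at hD
  have hD0 : D ≠ 0 := ne_zero_of_dvd_ne_zero hsg0 hD
  have hlog : ∑ p ∈ F, Real.log p ≤ Real.log D := by
    rw [hDd]
    push_cast
    rw [Real.log_prod (fun p _ => by positivity)]
    refine sum_le_sum fun p hp => ?_
    have hp0 : 0 < p := Nat.pos_of_mem_primeFactors (hF p hp).1
    have hp1 : (0 : ℝ) < p := by exact_mod_cast hp0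
    exact Real.log_le_log hp1 (by linarith)
  refine hlog.trans ?_
  rw [Real.log_nat_eq_sum_factorization]
  unfold SP Finsupp.sum
  rw [Nat.support_factorization]
  have hsub2 : D.primeFactors ⊆ Pr 0 z := by
    intro q hq
    have hqp := Nat.prime_of_mem_primeFactors hq
    have hqd := Nat.dvd_of_mem_primeFactors hq
    rw [hDd] at hqd
    obtain ⟨p, hp, hpq⟩ := (hqp.prime.dvd_finsetProd_iff _).1 hqd
    unfold Pr
    rw [mem_filter, mem_Ioc]
    refine ⟨⟨hqp.pos, ?_⟩, hqp⟩
    by_contra hlt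
    push Not at hlt
    exact (hF p hp).2.2 ⟨q, hqp, hlt, hpq⟩
  calc ∑ q ∈ D.primeFactors, (D.factorization q : ℝ) * Real.log q
      ≤ ∑ q ∈ D.primeFactors, ((sg n).factorization q : ℝ) * Real.log q := by
        refine sum_le_sum fun q hq => ?_
        have h3 : D.factorization q ≤ (sg n).factorization q :=
          (Nat.factorization_le_iff_dvd hD0 hsg0).2 hD q
        have h4 : (0 : ℝ) ≤ Real.log q := Real.log_natCast_nonneg q
        exact mul_le_mul_of_nonneg_right (by exact_mod_cast h3) h4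
    _ ≤ ∑ q ∈ Pr 0 z, ((sg n).factorization q : ℝ) * Real.log q := by
        refine sum_le_sum_of_subset_of_nonneg hsub2 fun q _ _ => ?_
        exact mul_nonneg (Nat.cast_nonneg _) (Real.log_natCast_nonneg q)

theorem p_ONE : S_ONE := by
  classical
  intro n z Y hn
  refine ONE_aux n z hn _ fun p hp => ?_
  obtain ⟨h1, _, h3, h4⟩ := mem_filter.1 hp
  exact ⟨h1, h3, h4⟩

end Pool.GRO
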