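import Pool.Agent.Work.MP_495a89_gro.Interface

set_option autoImplicit false

namespace Pool.GRO

open Finset Filter

theorem RES_log (ε : ℝ) (hε : 0 < ε) :
    ∀ᶠ x : ℝ in atTop, Real.log (1 + x) ≤ ε / 2 * x ∧ 1 ≤ x := by
  have h := (Real.isLittleO_log_id_atTop.comp_tendsto
    (tendsto_atTop_add_const_left atTop (1 : ℝ) tendsto_id)).def
      (show (0 : ℝ) < ε / 4 by positivity)
  filter_upwards [h, eventually_ge_atTop (1 : ℝ)] with x hx hx1
  refine ⟨?_, hx1⟩
  simp only [Function.comp, id] at hx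
  have h1 : Real.log (1 + x) ≤ ‖Real.log (1 + x)‖ := le_abs_self _
  have h2 : ‖1 + x‖ = 1 + x := by rw [Real.norm_eq_abs, abs_of_pos (by linarith)]
  rw [h2] at hx
  nlinarith

theorem RES_num (x L lg : ℝ) (hx : 1 ≤ x) (hL : 0 ≤ L) (hg0 : 0 ≤ lg) (hg : lg ≤ x) :
    Real.log ((x + (x + L - lg)) / 2) ≤ Real.log x + Real.log (1 - lg / (2 * x)) + L / x := by
  have hx0 : 0 < x := by linarith
  have hu : 1 / 2 ≤ 1 - lg / (2 * x) := by
    have : lg / (2 * x) ≤ 1 / 2 := by
      rw [div_le_div_iff₀ (by positivity) (by norm_num)]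
      linarith
    linarith
  have hu0 : 0 < 1 - lg / (2 * x) := by linarith
  have hW : (x + (x + L - lg)) / 2 = x * ((1 - lg / (2 * x)) * (1 + (L / (2 * x)) / (1 - lg / (2 * x)))) := by
    have hu' : (1 - lg / (2 * x)) * (1 + (L / (2 * x)) / (1 - lg / (2 * x))) =
        1 - lg / (2 * x) + L / (2 * x) := by
      rw [mul_add, mul_one, mul_div_cancel₀ _ hu0.ne']
    rw [hu']
    field_simp
    ring
  have h1 : 0 ≤ (L / (2 * x)) / (1 - lg / (2 * x)) := by positivity
  rw [hW, Real.log_mul hx0.ne' (by positivity), Real.log_mul hu0.ne' (by positivity)]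
  have h2 : Real.log (1 + (L / (2 * x)) / (1 - lg / (2 * x))) ≤ (L / (2 * x)) / (1 - lg / (2 * x)) := by
    have := Real.log_le_sub_one_of_pos (show 0 < 1 + (L / (2 * x)) / (1 - lg / (2 * x)) by positivity)
    linarith
  have h3 : (L / (2 * x)) / (1 - lg / (2 * x)) ≤ L / x := by
    rw [div_le_iff₀ hu0]
    have h4 : L / x * (1 / 2) ≤ L / x * (1 - lg / (2 * x)) :=
      mul_le_mul_of_nonneg_left hu (by positivity)
    have h5 : L / (2 * x) = L / x * (1 / 2) := by
      field_simp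
    rw [h5]
    exact h4
  linarith

theorem p_RES (h1 : S_FNA) (h2 : S_SGU) : S_RES := by
  intro ε hε
  obtain ⟨N1, hN1⟩ := h1 (ε / 2) (by positivity)
  obtain ⟨N2, hN2⟩ := eventually_atTop.1
    ((Real.tendsto_log_atTop.comp tendsto_natCast_atTop_atTop).eventually (RES_log ε hε))
  refine ⟨max (max N1 N2) 1, fun n hn => ?_⟩
  have hn1 : N1 ≤ n := le_trans (le_trans (le_max_left _ _) (le_max_left _ _)) hn
  have hn2 : N2 ≤ n := le_trans (le_trans (le_max_right _ _) (le_max_left _ _)) hn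
  have hn0 : 1 ≤ n := le_trans (le_max_right _ _) hn
  obtain ⟨hx, hx1⟩ := hN2 n hn2
  simp only [Function.comp] at hx hx1
  have hs : (∑ d ∈ n.divisors, (d : ℝ)) = (sg n : ℝ) := by
    unfold sg
    rw [Nat.cast_sum]
  have hg : (∑ d ∈ n.divisors, d) = sg n := rfl
  rw [hs, hg]
  have hnR : (0 : ℝ) < n := by exact_mod_cast hn0
  have hσ : (n : ℝ) ≤ sg n := by
    have : n ≤ sg n := Finset.single_le_sum (f := fun d => d) (fun _ _ => Nat.zero_le _)
      (Nat.mem_divisors_self n (by omega))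
    exact_mod_cast this
  have hσ0 : (0 : ℝ) < sg n := lt_of_lt_of_le hnR hσ
  have hx0 : 0 < Real.log n := by linarith
  set x := Real.log n with hxdef
  set L := Real.log (sg n) - x with hLdef
  have hL0 : 0 ≤ L := by
    have := Real.log_le_log hnR hσ
    linarith
  have hL1 : L ≤ Real.log (1 + x) := by
    have h3 := Real.log_le_log hσ0 (h2 n hn0)
    rw [Real.log_mul hnR.ne' (by positivity)] at h3
    linarith
  set gg := n.gcd (sg n) with hgg
  have hgpos : 1 ≤ gg := Nat.gcd_pos_of_pos_left _ hn0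
  have hgle : gg ≤ n := Nat.gcd_le_left _ hn0
  have hlg0 : 0 ≤ Real.log gg := Real.log_natCast_nonneg gg
  have hlg1 : Real.log gg ≤ x := by
    refine Real.log_le_log (by exact_mod_cast hgpos) (by exact_mod_cast hgle)
  have hA := hN1 n hn1
  have hB := RES_num x L (Real.log gg) hx1 hL0 hlg0 hlg1
  have hC : (x + (Real.log (sg n) - Real.log gg)) / 2 = (x + (x + L - Real.log gg)) / 2 := by
    rw [hLdef]
    ring
  have hD : L / x ≤ ε / 2 := by
    rw [div_le_iff₀ hx0]
    linarith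
  rw [hC] at hA
  refine hA.trans (mul_le_mul_of_nonneg_left ?_ (Real.exp_pos _).le)
  linarith

end Pool.GRO
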