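import Pool.Agent.Work.MP_495a89_gro.Interface

set_option autoImplicit false

namespace Pool.GRO

open Finset

theorem SGU_harm (n : ℕ) : ∑ d ∈ Icc 1 n, ((d : ℝ))⁻¹ = ((harmonic n : ℚ) : ℝ) := by
  rw [harmonic_eq_sum_Icc]
  push_cast
  rfl

theorem p_SGU : S_SGU := by
  intro n hn
  have h1 : sg n = ∑ d ∈ n.divisors, n / d := by
    unfold sg
    exact (Nat.sum_div_divisors n (fun d => d)).symm
  have h2 : (sg n : ℝ) = ∑ d ∈ n.divisors, (n : ℝ) * ((d : ℝ))⁻¹ := by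
    rw [h1]
    push_cast
    refine Finset.sum_congr rfl fun d hd => ?_
    have hdvd := Nat.dvd_of_mem_divisors hd
    have hpos : 0 < d := Nat.pos_of_mem_divisors hd
    rw [Nat.cast_div hdvd (by positivity), div_eq_mul_inv]
  rw [h2, ← Finset.mul_sum]
  have h3 : ∑ d ∈ n.divisors, ((d : ℝ))⁻¹ ≤ ∑ d ∈ Icc 1 n, ((d : ℝ))⁻¹ := by
    refine Finset.sum_le_sum_of_subset_of_nonneg ?_ ?_
    · intro d hd
      rw [Finset.mem_Icc]
      exact ⟨Nat.pos_of_mem_divisors hd, Nat.divisor_le hd⟩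
    · intro d _ _
      positivity
  have h4 : ((harmonic n : ℚ) : ℝ) ≤ 1 + Real.log n := harmonic_le_one_add_log n
  have h5 : ∑ d ∈ n.divisors, ((d : ℝ))⁻¹ ≤ 1 + Real.log n := by
    refine h3.trans ?_
    rw [SGU_harm]
    exact h4
  exact mul_le_mul_of_nonneg_left h5 (by positivity)

end Pool.GRO
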