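import Pool.Agent.Work.MP_495a89_gro.Interface

/-! Block SQP. -/

set_option autoImplicit false

namespace Pool.GRO

open Finset

theorem SQP_tel (z : ℕ) (hz : 1 ≤ z) : ∀ N : ℕ, z ≤ N →
    ∑ m ∈ Ioc z N, (1 / ((m : ℝ) - 1) - 1 / (m : ℝ)) = 1 / (z : ℝ) - 1 / (N : ℝ) := by
  intro N hN
  induction N, hN using Nat.le_induction with
  | base => simp
  | succ N hN ih =>
    rw [Finset.sum_Ioc_succ_top hN, ih]
    push_cast
    ring

theorem SQP_sum (A : Finset ℕ) (z : ℕ) (hz : 1 ≤ z) (hA : ∀ p ∈ A, z < p) :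
    ∑ p ∈ A, (1 / ((p : ℝ) - 1) - 1 / (p : ℝ)) ≤ 1 / z := by
  have hsub : A ⊆ Ioc z (max z (A.sup id)) := by
    intro p hp
    rw [mem_Ioc]
    exact ⟨hA p hp, le_trans (Finset.le_sup (f := id) hp) (le_max_right _ _)⟩
  have hnn : ∀ p ∈ Ioc z (max z (A.sup id)), p ∉ A → (0 : ℝ) ≤ 1 / ((p : ℝ) - 1) - 1 / (p : ℝ) := by
    intro p hp _
    rw [mem_Ioc] at hp
    have h1 : (1 : ℝ) < p := by exact_mod_cast lt_of_le_of_lt hz hp.1
    have h2 : 1 / (p : ℝ) ≤ 1 / ((p : ℝ) - 1) := one_div_le_one_div_of_le (by linarith) (by linarith)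
    linarith
  refine (Finset.sum_le_sum_of_subset_of_nonneg hsub hnn).trans ?_
  rw [SQP_tel z hz _ (le_max_left _ _)]
  have : (0 : ℝ) ≤ 1 / ((max z (A.sup id) : ℕ) : ℝ) := by positivity
  linarith

theorem p_SQP : S_SQP := by
  intro A z hz hA
  have h2 : ∀ p ∈ A, (2 : ℝ) ≤ p := fun p hp => by exact_mod_cast (hA p hp).1.two_le
  constructor
  · have h1 : ∏ p ∈ A, (1 - 1 / (p : ℝ))⁻¹ ≤ ∏ p ∈ A, Real.exp (1 / ((p : ℝ) - 1)) := by
      refine Finset.prod_le_prod (fun p hp => ?_) (fun p hp => ?_)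
      · have h3 := h2 p hp
        rw [inv_nonneg, sub_nonneg, div_le_one (by linarith)]
        linarith
      · have h3 := h2 p hp
        have h4 : (1 - 1 / (p : ℝ))⁻¹ = 1 / ((p : ℝ) - 1) + 1 := by
          have h5 : (p : ℝ) ≠ 0 := by linarith
          have h6 : (p : ℝ) - 1 ≠ 0 := by linarith
          field_simp
          ring
        rw [h4]
        exact Real.add_one_le_exp _
    refine h1.trans ?_
    rw [← Real.exp_sum]
    apply Real.exp_le_exp.2
    have h3 := SQP_sum A z hz (fun p hp => (hA p hp).2)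
    rw [Finset.sum_sub_distrib] at h3
    linarith
  · rw [Real.exp_sum]
    refine Finset.prod_le_prod (fun p hp => (Real.exp_pos _).le) (fun p hp => ?_)
    have h3 := h2 p hp
    have h4 : (0 : ℝ) < 1 - 1 / (p : ℝ) := by
      rw [sub_pos, div_lt_one (by linarith)]
      linarith
    rw [le_inv_comm₀ (Real.exp_pos _) h4, ← Real.exp_neg]
    have h5 := Real.add_one_le_exp (-(1 / (p : ℝ)))
    linarith

end Pool.GRO
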