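import Pool.Agent.Work.MP_495a89_gro.Interface

set_option autoImplicit false

namespace Pool.GRO

open Finset

/-- The sum of the logarithms of the prime factors is at most the logarithm. -/
theorem TAI_log (n : ℕ) (hn : 1 ≤ n) : ∑ p ∈ n.primeFactors, Real.log p ≤ Real.log n := by
  have h1 : ∏ p ∈ n.primeFactors, p ≤ n := Nat.le_of_dvd hn (Nat.prod_primeFactors_dvd n)
  have h2 : Real.log (∏ p ∈ n.primeFactors, (p : ℝ)) = ∑ p ∈ n.primeFactors, Real.log p := by
    apply Real.log_prod
    intro p hp
    exact_mod_cast (Nat.prime_of_mem_primeFactors hp).ne_zero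
  rw [← h2]
  apply Real.log_le_log
  · apply Finset.prod_pos
    intro p hp
    exact_mod_cast (Nat.prime_of_mem_primeFactors hp).pos
  · rw [← Nat.cast_prod]
    exact_mod_cast h1

theorem p_TAI : S_TAI := by
  intro n Y hn hY
  have hY0 : (0 : ℝ) < Y := by exact_mod_cast (by omega : 0 < Y)
  have hlY : 0 < Real.log Y := Real.log_pos (by exact_mod_cast (by omega : 1 < Y))
  have hden : 0 < (Y : ℝ) * Real.log Y := mul_pos hY0 hlY
  have hterm : ∀ p ∈ n.primeFactors.filter (fun p => Y < p),
      1 / (p : ℝ) ≤ Real.log p / (Y * Real.log Y) := by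
    intro p hp
    rw [Finset.mem_filter] at hp
    have h1 : (Y : ℝ) ≤ p := by exact_mod_cast hp.2.le
    have h2 : Real.log Y ≤ Real.log p := Real.log_le_log hY0 h1
    have hp0 : (0 : ℝ) < p := lt_of_lt_of_le hY0 h1
    rw [div_le_div_iff₀ hp0 hden, one_mul, mul_comm (Y : ℝ)]
    exact mul_le_mul h2 h1 hY0.le (hlY.le.trans h2)
  calc ∑ p ∈ n.primeFactors.filter (fun p => Y < p), 1 / (p : ℝ)
      ≤ ∑ p ∈ n.primeFactors.filter (fun p => Y < p), Real.log p / (Y * Real.log Y) :=
        Finset.sum_le_sum hterm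
    _ = (∑ p ∈ n.primeFactors.filter (fun p => Y < p), Real.log p) / (Y * Real.log Y) := by
        rw [Finset.sum_div]
    _ ≤ Real.log n / (Y * Real.log Y) := by
        apply div_le_div_of_nonneg_right _ hden.le
        refine le_trans ?_ (TAI_log n hn)
        apply Finset.sum_le_sum_of_subset_of_nonneg (Finset.filter_subset _ _)
        intro p hp _
        exact Real.log_natCast_nonneg p

end Pool.GRO
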