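import Pool.Agent.Work.MP_495a89_gro.B_AUP
import Pool.Agent.Work.MP_495a89_gro.B_SGU
import Pool.Agent.Work.MP_495a89_gro.B_FLW
import Pool.Agent.Work.MP_495a89_gro.B_ONE
import Pool.Agent.Work.MP_495a89_gro.B_CST
import Pool.Agent.Work.MP_495a89_gro.B_FLO
import Pool.Agent.Work.MP_495a89_gro.B_EXC
import Pool.Agent.Work.MP_495a89_gro.B_EXG
import Pool.Agent.Work.MP_495a89_gro.B_TAI
import Pool.Agent.Work.MP_495a89_gro.B_SQP
import Pool.Agent.Work.MP_495a89_gro.B_CMP
import Pool.Agent.Work.MP_495a89_gro.B_TH2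
import Pool.Agent.Work.MP_495a89_gro.B_M3Sx
import Pool.Agent.Work.MP_495a89_gro.B_FNA
import Pool.Agent.Work.MP_495a89_gro.B_RES
import Pool.Agent.Work.MP_495a89_gro.B_COR

/-! # Second order Gronwall bound: assembly -/

set_option autoImplicit false

namespace Pool.GRO

open Finset

theorem res : S_RES :=
  p_RES (p_FNA p_AUP p_SGU p_M3Sx (p_FLO p_FLW p_ONE p_CST) p_EXC (p_CMP p_EXG p_TAI p_SQP) p_TH2)
    p_SGU

theorem cor : S_COR := p_COR res

theorem main : ∀ ε : ℝ, 0 < ε → ∃ N : ℕ, ∀ n : ℕ, N ≤ n →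
    (∑ d ∈ n.divisors, (d : ℝ)) / n ≤ Real.exp Real.eulerMascheroniConstant *
      (Real.log (Real.log n) +
        Real.log (1 - Real.log (n.gcd (∑ d ∈ n.divisors, d)) / (2 * Real.log n)) + ε) ∧
    ∀ k : ℕ, ∑ d ∈ n.divisors, d = k * n →
      (k : ℝ) ≤ Real.exp Real.eulerMascheroniConstant *
        (Real.log (Real.log n) - Real.log 2 + ε) ∧
      (2 - ε) * Real.exp (Real.exp (-Real.eulerMascheroniConstant) * k) ≤ Real.log n := by
  intro ε hε
  obtain ⟨N1, h1⟩ := res ε hε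
  obtain ⟨N2, h2⟩ := cor ε hε
  refine ⟨max N1 N2, fun n hn => ⟨h1 n (le_trans (le_max_left _ _) hn), fun k hk => ?_⟩⟩
  exact h2 n k (le_trans (le_max_right _ _) hn) hk

/-- Robin's inequality for all large `n` with `gcd(n, σ(n)) ≥ n ^ δ`. -/
theorem robin (δ : ℝ) (hδ : 0 < δ) : ∃ N : ℕ, ∀ n : ℕ, N ≤ n →
    (n : ℝ) ^ δ ≤ (n.gcd (∑ d ∈ n.divisors, d) : ℕ) →
    (∑ d ∈ n.divisors, (d : ℝ)) < Real.exp Real.eulerMascheroniConstant * n *
      Real.log (Real.log n) := by
  obtain ⟨N1, h1⟩ := res (δ / 4) (by positivity)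
  refine ⟨max N1 3, fun n hn hg => ?_⟩
  have hn3 : 3 ≤ n := le_trans (le_max_right _ _) hn
  have hnR : (3 : ℝ) ≤ n := by exact_mod_cast hn3
  have hn0 : (0 : ℝ) < n := by linarith
  have h := h1 n (le_trans (le_max_left _ _) hn)
  set g : ℕ := n.gcd (∑ d ∈ n.divisors, d) with hgdef
  have hx1 : 0 < Real.log n := Real.log_pos (by linarith)
  have hlg : δ * Real.log n ≤ Real.log g := by
    rw [← Real.log_rpow hn0]
    exact Real.log_le_log (by positivity) hg
  have hgle : Real.log g ≤ Real.log n := by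
    have hg1 : g ≤ n := Nat.gcd_le_left _ (by omega)
    have hg0 : 0 < g := Nat.gcd_pos_of_pos_left _ (by omega)
    exact Real.log_le_log (by exact_mod_cast hg0) (by exact_mod_cast hg1)
  have hq1 : δ / 2 ≤ Real.log g / (2 * Real.log n) := by
    rw [le_div_iff₀ (by positivity)]
    linarith
  have hq2 : Real.log g / (2 * Real.log n) ≤ 1 / 2 := by
    rw [div_le_iff₀ (by positivity)]
    linarith
  have hlog : Real.log (1 - Real.log g / (2 * Real.log n)) ≤ -(δ / 2) := by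
    have := Real.log_le_sub_one_of_pos (x := 1 - Real.log g / (2 * Real.log n)) (by linarith)
    linarith
  have hG : 0 < Real.exp Real.eulerMascheroniConstant := Real.exp_pos _
  have h2 : (∑ d ∈ n.divisors, (d : ℝ)) / n < Real.exp Real.eulerMascheroniConstant *
      Real.log (Real.log n) := by
    refine lt_of_le_of_lt h ?_
    apply mul_lt_mul_of_pos_left _ hG
    linarith
  rw [div_lt_iff₀ hn0] at h2
  linarith

end Pool.GRO
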