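import Pool.Agent.Work.MP_495a89_gro.Interface

/-! # AUP: the abundancy index is at most the Euler product -/

set_option autoImplicit false

namespace Pool.GRO

open Finset

theorem AUP_loc (p e : ℕ) (hp : 2 ≤ p) :
    (∑ k ∈ range (e + 1), (p : ℝ) ^ k) / (p : ℝ) ^ e ≤ (1 - 1 / (p : ℝ))⁻¹ := by
  have hp' : (2 : ℝ) ≤ p := by exact_mod_cast hp
  have hp0 : (0 : ℝ) < p := by linarith
  have h1 := geom_sum_mul (p : ℝ) (e + 1)
  have h2 : (1 - 1 / (p : ℝ))⁻¹ = p / (p - 1) := by
    rw [show (1 - 1 / (p : ℝ)) = (p - 1) / p by field_simp, inv_div]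
  have h3 : (0 : ℝ) < p - 1 := by linarith
  rw [h2, div_le_iff₀ (by positivity), div_mul_eq_mul_div, le_div_iff₀ h3, h1, pow_succ]
  linarith

theorem p_AUP : S_AUP := by
  intro n hn
  have hn0 : n ≠ 0 := by omega
  have h1 : (sg n : ℝ) = ∏ p ∈ n.primeFactors, ∑ k ∈ range (n.factorization p + 1), (p : ℝ) ^ k := by
    unfold sg
    rw [Nat.sum_divisors hn0]
    push_cast
    rfl
  have h2 : (n : ℝ) = ∏ p ∈ n.primeFactors, (p : ℝ) ^ n.factorization p := by
    conv_lhs => rw [← Nat.factorization_prod_pow_eq_self hn0]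
    rw [Finsupp.prod, Nat.support_factorization]
    push_cast
    rfl
  rw [h1]
  conv_lhs => rw [h2]
  rw [← Finset.prod_div_distrib]
  refine Finset.prod_le_prod (fun p _ => by positivity) fun p hp => ?_
  exact AUP_loc p _ (Nat.prime_of_mem_primeFactors hp).two_le

end Pool.GRO
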