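import Pool.Agent.Work.MP_495a89_gro.Interface

set_option autoImplicit false

namespace Pool.GRO

open Finset

theorem p_CST : S_CST := by
  classical
  intro n z Y hn
  have hlog : Real.log n = ∑ p ∈ n.primeFactors, (n.factorization p : ℝ) * Real.log p := by
    rw [Real.log_nat_eq_sum_factorization n]
    rfl
  have hSP : SP n z = ∑ p ∈ n.primeFactors, if p ≤ z then (n.factorization p : ℝ) * Real.log p else 0 := by
    unfold SP Pr
    rw [← Finset.sum_filter]
    symm
    apply Finset.sum_subset
    · intro p hp
      obtain ⟨hp1, hp2⟩ := Finset.mem_filter.1 hp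
      have hpp := Nat.prime_of_mem_primeFactors hp1
      exact Finset.mem_filter.2 ⟨Finset.mem_Ioc.2 ⟨hpp.pos, hp2⟩, hpp⟩
    · intro q hq hq'
      obtain ⟨hq1, hq2⟩ := Finset.mem_filter.1 hq
      have hqz : q ≤ z := (Finset.mem_Ioc.1 hq1).2
      have hnot : q ∉ n.primeFactors := fun h => hq' (Finset.mem_filter.2 ⟨h, hqz⟩)
      have h0 : n.factorization q = 0 := by
        rw [← Finsupp.notMem_support_iff, Nat.support_factorization]
        exact hnot
      rw [h0]
      simp
  have hT : T n z Y = ∑ p ∈ n.primeFactors, if z < p ∧ p ≤ Y then Real.log p else 0 := by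
    unfold T
    rw [Finset.sum_filter]
  rw [hT, hSP, Finset.sum_filter, hlog, ← Finset.sum_add_distrib, ← Finset.sum_add_distrib]
  apply Finset.sum_le_sum
  intro p hp
  have hpp := Nat.prime_of_mem_primeFactors hp
  have hl : 0 ≤ Real.log (p : ℝ) := Real.log_nonneg (by exact_mod_cast hpp.one_lt.le)
  have hv : 1 ≤ n.factorization p := by
    rw [← Nat.support_factorization] at hp
    exact Nat.one_le_iff_ne_zero.2 (Finsupp.mem_support_iff.1 hp)
  have hv1 : (1 : ℝ) ≤ (n.factorization p : ℝ) := by exact_mod_cast hv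
  by_cases hz : p ≤ z
  · have h1 : ¬ (z < p ∧ p ≤ Y) := fun h => absurd h.1 (by omega)
    rw [if_neg h1, if_neg (fun h => h1 h.1), if_pos hz]
    linarith
  · rw [if_neg hz]
    by_cases hY : p ≤ Y
    · have h1 : z < p ∧ p ≤ Y := ⟨by omega, hY⟩
      rw [if_pos h1]
      by_cases he : n.factorization p = 1
      · rw [if_neg (fun h => h.2 he), he]
        push_cast
        linarith
      · rw [if_pos ⟨h1, he⟩]
        have h2 : (2 : ℝ) ≤ (n.factorization p : ℝ) := by
          have : 2 ≤ n.factorization p := by omega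
          exact_mod_cast this
        nlinarith
    · have h1 : ¬ (z < p ∧ p ≤ Y) := fun h => hY h.2
      rw [if_neg h1, if_neg (fun h => h1 h.1)]
      have : 0 ≤ (n.factorization p : ℝ) * Real.log p := by positivity
      linarith

end Pool.GRO
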