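import Pool.Agent.Work.MP_495a89_gro.Interface

/-!
# Block EXG
-/

set_option autoImplicit false

namespace Pool.GRO

open Finset

theorem EXGx_le {p w : ℕ} (hp : 1 ≤ p) (hpw : p ≤ w) : (p : ℝ) * Real.log p ≤ w * Real.log w := by
  have h1 : (1 : ℝ) ≤ p := by exact_mod_cast hp
  have h2 : (p : ℝ) ≤ w := by exact_mod_cast hpw
  exact mul_le_mul h2 (Real.log_le_log (by linarith) h2) (Real.log_nonneg h1) (by linarith)

theorem p_EXGx : S_EXG := by
  classical
  intro P z w Y hP hz hzw hwY
  have hw2 : 2 ≤ w := hz.trans hzw
  have hw : (2 : ℝ) ≤ w := by exact_mod_cast hw2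
  have hlog : 0 < Real.log w := Real.log_pos (by linarith)
  set c : ℝ := w * Real.log w with hc
  have hc0 : 0 < c := by positivity
  set A : Finset ℕ := P.filter (fun p => z < p ∧ p ≤ Y) with hA
  have key : ∑ p ∈ A, (1 / (p : ℝ) - Real.log p / c) ≤
      ∑ p ∈ Pr z w, (1 / (p : ℝ) - Real.log p / c) := by
    calc ∑ p ∈ A, (1 / (p : ℝ) - Real.log p / c)
        ≤ ∑ p ∈ A.filter (fun p => p ≤ w), (1 / (p : ℝ) - Real.log p / c) := by
          rw [← Finset.sum_filter_add_sum_filter_not A (fun p => p ≤ w)]
          have h1 : ∑ p ∈ A.filter (fun p => ¬ p ≤ w), (1 / (p : ℝ) - Real.log p / c) ≤ 0 := by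
            apply Finset.sum_nonpos
            intro p hp
            rw [mem_filter] at hp
            have h2 : w ≤ p := by omega
            have h3 := EXGx_le (by omega) h2
            have h4 : (0 : ℝ) < p := by exact_mod_cast (by omega : 0 < p)
            rw [sub_nonpos, div_le_div_iff₀ h4 hc0]
            rw [hc]
            linarith
          linarith
      _ ≤ _ := by
          apply Finset.sum_le_sum_of_subset_of_nonneg
          · intro p hp
            rw [mem_filter, hA, mem_filter] at hp
            unfold Pr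
            rw [mem_filter, mem_Ioc]
            exact ⟨⟨hp.1.2.1, hp.2⟩, hP p hp.1.1⟩
          · intro p hp _
            unfold Pr at hp
            rw [mem_filter, mem_Ioc] at hp
            have h3 := EXGx_le hp.2.one_lt.le hp.1.2
            have h4 : (0 : ℝ) < p := by exact_mod_cast hp.2.pos
            rw [sub_nonneg, div_le_div_iff₀ hc0 h4]
            rw [hc]
            linarith
  rw [sum_sub_distrib, sum_sub_distrib, ← sum_div, ← sum_div] at key
  rw [sub_div]
  linarith

end Pool.GRO
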