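import Pool.Agent.Work.MP_495a89_gro.Interface
import Pool.Agent.Work.MP_1ea053_nt.MER

set_option autoImplicit false

namespace Pool.GRO

open Finset Filter
open scoped Topology
open Pool.Agent.Work.MP_b0c12c_nt (Vz pp_one_eq)
open Pool.Agent.GapTwoMER (tendsto_Vz)

theorem M3S_VP (w : ℕ) : VP w = (Vz w)⁻¹ := by
  have h : Ioc 0 w = Icc 1 w := by
    ext a
    simp only [mem_Ioc, mem_Icc]
    omega
  unfold VP Vz Pr
  rw [Finset.prod_inv_distrib, h]

theorem M3S_pos (w : ℕ) : 0 < VP w := by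
  unfold VP Pr
  apply Finset.prod_pos
  intro p hp
  have hp2 := (mem_filter.mp hp).2.two_le
  have hp3 : (2 : ℝ) ≤ p := by exact_mod_cast hp2
  rw [inv_pos, sub_pos, div_lt_one (by linarith)]
  linarith

theorem M3S_split (w v : ℕ) (h : w ≤ v) :
    VP v = VP w * ∏ p ∈ Pr w v, (1 - 1 / (p : ℝ))⁻¹ := by
  have hu : Pr 0 v = Pr 0 w ∪ Pr w v := by
    ext a
    simp only [Pr, mem_union, mem_filter, mem_Ioc]
    constructor
    · rintro ⟨⟨h1, h2⟩, h3⟩
      by_cases h4 : a ≤ w
      · exact Or.inl ⟨⟨h1, h4⟩, h3⟩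
      · exact Or.inr ⟨⟨by omega, h2⟩, h3⟩
    · rintro (⟨⟨h1, h2⟩, h3⟩ | ⟨⟨h1, h2⟩, h3⟩)
      · exact ⟨⟨h1, by omega⟩, h3⟩
      · exact ⟨⟨by omega, h2⟩, h3⟩
  have hd : Disjoint (Pr 0 w) (Pr w v) := by
    rw [Finset.disjoint_left]
    intro a h1 h2
    simp only [Pr, mem_filter, mem_Ioc] at h1 h2
    omega
  unfold VP
  rw [hu, Finset.prod_union hd]

theorem M3S_ineq (C : ℝ)
    (h1 : ∀ u v : ℕ, 2 ≤ u → u ≤ v →
      |∑ p ∈ Pr u v, 1 / (p : ℝ) - (Real.log (Real.log v) - Real.log (Real.log u))| ≤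
        C / Real.log u ^ 2) (h2 : S_SQP) (w v : ℕ) (hw : 2 ≤ w) (hv : w ≤ v) :
    VP w * Real.exp (-(C / Real.log w ^ 2)) / Real.log w * (Vz v * Real.log v) ≤ 1 := by
  have hw2 : (2 : ℝ) ≤ w := by exact_mod_cast hw
  have hv2 : (2 : ℝ) ≤ v := by exact_mod_cast (le_trans hw hv)
  have hlw : 0 < Real.log w := Real.log_pos (by linarith)
  have hlv : 0 < Real.log v := Real.log_pos (by linarith)
  have hs := (h2 (Pr w v) w (by omega) (fun p hp => by
    simp only [Pr, mem_filter, mem_Ioc] at hp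
    exact ⟨hp.2, hp.1.1⟩)).2
  have hp := (abs_le.mp (h1 w v hw hv)).1
  have he : Real.log v / Real.log w * Real.exp (-(C / Real.log w ^ 2)) ≤
      ∏ p ∈ Pr w v, (1 - 1 / (p : ℝ))⁻¹ := by
    refine le_trans ?_ hs
    have h3 : Real.log v / Real.log w * Real.exp (-(C / Real.log w ^ 2)) =
        Real.exp (Real.log (Real.log v) - Real.log (Real.log w) + -(C / Real.log w ^ 2)) := by
      rw [Real.exp_add, Real.exp_sub, Real.exp_log hlv, Real.exp_log hlw]
    rw [h3]
    exact Real.exp_le_exp.mpr (by linarith)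
  have hsp := M3S_split w v hv
  have hVP := M3S_VP v
  have hVp := M3S_pos v
  have hVw := M3S_pos w
  have hVz : Vz v = (VP v)⁻¹ := by rw [hVP, inv_inv]
  have hVz0 : 0 < Vz v := by rw [hVz]; exact inv_pos.mpr hVp
  calc VP w * Real.exp (-(C / Real.log w ^ 2)) / Real.log w * (Vz v * Real.log v)
      = Vz v * (VP w * (Real.log v / Real.log w * Real.exp (-(C / Real.log w ^ 2)))) := by
        ring
    _ ≤ Vz v * (VP w * ∏ p ∈ Pr w v, (1 - 1 / (p : ℝ))⁻¹) :=
        mul_le_mul_of_nonneg_left (mul_le_mul_of_nonneg_left he hVw.le) hVz0.le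
    _ = Vz v * VP v := by rw [hsp]
    _ = 1 := by rw [hVz]; exact inv_mul_cancel₀ hVp.ne'

theorem p_M3S (h1 : S_PSM) (h2 : S_SQP) : S_M3S := by
  obtain ⟨C, hC, h1⟩ := h1
  intro ε hε
  have hev : ∀ᶠ w : ℕ in atTop, 1 + 2 * C + 2 * C / ε ≤ Real.log w :=
    (Real.tendsto_log_atTop.comp tendsto_natCast_atTop_atTop).eventually_ge_atTop _
  obtain ⟨W0, hW0⟩ := eventually_atTop.mp hev
  refine ⟨max W0 2, fun w hw => ?_⟩
  have hL := hW0 w (le_trans (le_max_left _ _) hw)
  have hw2 : 2 ≤ w := le_trans (le_max_right _ _) hw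
  have hCe : 0 < 2 * C / ε := by positivity
  have hl1 : 1 ≤ Real.log w := by linarith
  have hl0 : 0 < Real.log w := by linarith
  have hlim : VP w * Real.exp (-(C / Real.log w ^ 2)) / Real.log w *
      Real.exp (-Real.eulerMascheroniConstant) ≤ 1 := by
    have h3 := tendsto_Vz
    rw [pp_one_eq] at h3
    refine le_of_tendsto (h3.const_mul
      (VP w * Real.exp (-(C / Real.log w ^ 2)) / Real.log w)) ?_
    filter_upwards [eventually_ge_atTop w] with v hv
    exact M3S_ineq C h1 h2 w v hw2 hv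
  set t := C / Real.log w ^ 2 with ht
  have ht0 : 0 < t := by positivity
  have ht1 : t ≤ 1 / 2 := by
    rw [ht, div_le_iff₀ (by positivity)]
    nlinarith
  have hte : 1 - t ≤ Real.exp (-t) := Real.one_sub_le_exp_neg t
  have hVw := M3S_pos w
  have hg : Real.exp Real.eulerMascheroniConstant * Real.exp (-Real.eulerMascheroniConstant) = 1 := by
    rw [← Real.exp_add]; simp
  have hE0 : 0 < Real.exp Real.eulerMascheroniConstant := Real.exp_pos _
  -- VP w (1 - t) ≤ e^γ log w
  have h4 : VP w * (1 - t) ≤ Real.exp Real.eulerMascheroniConstant * Real.log w := by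
    have h5 : VP w * (1 - t) ≤ VP w * Real.exp (-t) := mul_le_mul_of_nonneg_left hte hVw.le
    have h6 : VP w * Real.exp (-t) = (Real.exp Real.eulerMascheroniConstant * Real.log w) *
        (VP w * Real.exp (-t) / Real.log w * Real.exp (-Real.eulerMascheroniConstant)) := by
      have h7 : (Real.exp Real.eulerMascheroniConstant * Real.log w) *
        (VP w * Real.exp (-t) / Real.log w * Real.exp (-Real.eulerMascheroniConstant)) =
        (Real.exp Real.eulerMascheroniConstant * Real.exp (-Real.eulerMascheroniConstant)) *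
          (VP w * Real.exp (-t)) * (Real.log w / Real.log w) := by ring
      rw [h7, hg, div_self hl0.ne']
      ring
    rw [h6] at h5
    refine le_trans h5 ?_
    have h8 : 0 ≤ Real.exp Real.eulerMascheroniConstant * Real.log w := by positivity
    calc _ ≤ (Real.exp Real.eulerMascheroniConstant * Real.log w) * 1 :=
          mul_le_mul_of_nonneg_left hlim h8
      _ = _ := mul_one _
  have h9 : VP w ≤ VP w * (1 - t) * (1 + 2 * t) := by
    have : 1 ≤ (1 - t) * (1 + 2 * t) := by nlinarith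
    nlinarith
  have h10 : Real.log w * (1 + 2 * t) ≤ Real.log w + ε := by
    have h11 : Real.log w * (2 * t) ≤ ε := by
      have h12 : Real.log w * (2 * t) = 2 * C / Real.log w := by
        rw [ht]; field_simp
      rw [h12, div_le_iff₀ hl0]
      have h13 : 2 * C / ε ≤ Real.log w := by linarith
      rw [div_le_iff₀ hε] at h13
      linarith
    linarith
  calc VP w ≤ VP w * (1 - t) * (1 + 2 * t) := h9
    _ ≤ Real.exp Real.eulerMascheroniConstant * Real.log w * (1 + 2 * t) :=
        mul_le_mul_of_nonneg_right h4 (by linarith)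
    _ = Real.exp Real.eulerMascheroniConstant * (Real.log w * (1 + 2 * t)) := by ring
    _ ≤ Real.exp Real.eulerMascheroniConstant * (Real.log w + ε) :=
        mul_le_mul_of_nonneg_left h10 hE0.le

end Pool.GRO
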