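import Pool.Agent.Work.MP_495a89_gro.Interface

set_option autoImplicit false

namespace Pool.GRO

open Finset

/-- the weight -/
noncomputable def PSM_g (m : ℕ) : ℝ := 1 / ((m : ℝ) * Real.log m)

/-- the error term -/
noncomputable def PSM_E (m : ℕ) : ℝ := th m - m

theorem PSM_logs (m : ℕ) (hm : 2 ≤ m) : 1 / 2 < Real.log m ∧
    1 / ((m : ℝ) + 1) ≤ Real.log ((m + 1 : ℕ) : ℝ) - Real.log m ∧
    Real.log ((m + 1 : ℕ) : ℝ) - Real.log m ≤ 1 / (m : ℝ) ∧
    Real.log ((m + 1 : ℕ) : ℝ) ≤ 2 * Real.log m := by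
  have hm2 : (2 : ℝ) ≤ m := by exact_mod_cast hm
  have hm0 : (0 : ℝ) < m := by linarith
  have hm1 : (0 : ℝ) < (m : ℝ) + 1 := by linarith
  have hc : ((m + 1 : ℕ) : ℝ) = (m : ℝ) + 1 := by push_cast; ring
  have hdiff : Real.log ((m + 1 : ℕ) : ℝ) - Real.log m = Real.log (((m : ℝ) + 1) / m) := by
    rw [hc, Real.log_div hm1.ne' hm0.ne']
  have hx : 0 < ((m : ℝ) + 1) / m := by positivity
  refine ⟨?_, ?_, ?_, ?_⟩
  · have h1 : Real.log 2 ≤ Real.log m := Real.log_le_log (by norm_num) hm2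
    have h2 := Real.log_two_gt_d9
    linarith
  · rw [hdiff]
    have h1 := Real.one_sub_inv_le_log_of_pos hx
    have h2 : 1 - (((m : ℝ) + 1) / m)⁻¹ = 1 / ((m : ℝ) + 1) := by
      rw [inv_div]
      field_simp
      ring
    linarith
  · rw [hdiff]
    have h1 := Real.log_le_sub_one_of_pos hx
    have h2 : ((m : ℝ) + 1) / m - 1 = 1 / (m : ℝ) := by
      field_simp
      ring
    linarith
  · have h1 : ((m + 1 : ℕ) : ℝ) ≤ (m : ℝ) ^ 2 := by rw [hc]; nlinarith
    have h2 : Real.log ((m + 1 : ℕ) : ℝ) ≤ Real.log ((m : ℝ) ^ 2) :=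
      Real.log_le_log (by rw [hc]; linarith) h1
    rw [Real.log_pow] at h2
    exact_mod_cast h2

theorem PSM_step (m : ℕ) (hm : 2 ≤ m) : 0 ≤ PSM_g m - PSM_g (m + 1) ∧
    (m : ℝ) / Real.log m ^ 2 * (PSM_g m - PSM_g (m + 1)) ≤
      6 * (1 / Real.log m ^ 2 - 1 / Real.log ((m + 1 : ℕ) : ℝ) ^ 2) := by
  obtain ⟨ha, h1, h2, h3⟩ := PSM_logs m hm
  have hm2 : (2 : ℝ) ≤ m := by exact_mod_cast hm
  have hm0 : (0 : ℝ) < m := by linarith
  unfold PSM_g
  set a := Real.log (m : ℝ) with hadef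
  set b := Real.log ((m + 1 : ℕ) : ℝ) with hbdef
  have hc : ((m + 1 : ℕ) : ℝ) = (m : ℝ) + 1 := by push_cast; ring
  rw [hc]
  have ha0 : 0 < a := by linarith
  have hab : a ≤ b := by
    have : (0 : ℝ) < 1 / ((m : ℝ) + 1) := by positivity
    linarith
  have hb0 : 0 < b := by linarith
  have hid : 1 / ((m : ℝ) * a) - 1 / (((m : ℝ) + 1) * b) =
      (b + m * (b - a)) / ((m : ℝ) * a * ((m + 1) * b)) := by
    field_simp
    ring
  have hmb : (m : ℝ) * (b - a) ≤ 1 := by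
    have := mul_le_mul_of_nonneg_left h2 hm0.le
    rwa [mul_one_div_cancel hm0.ne'] at this
  have hnum : b + m * (b - a) ≤ 3 * b := by linarith
  constructor
  · rw [hid]
    apply div_nonneg
    · have : 0 ≤ (m : ℝ) * (b - a) := mul_nonneg hm0.le (by linarith)
      linarith
    · positivity
  · have hup : 1 / ((m : ℝ) * a) - 1 / (((m : ℝ) + 1) * b) ≤ 3 / ((m : ℝ) * a * (m + 1)) := by
      rw [hid]
      calc (b + m * (b - a)) / ((m : ℝ) * a * ((m + 1) * b)) ≤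
          3 * b / ((m : ℝ) * a * ((m + 1) * b)) :=
            div_le_div_of_nonneg_right hnum (by positivity)
        _ = 3 / ((m : ℝ) * a * (m + 1)) := by field_simp
    have hlow : 1 / (2 * ((m : ℝ) + 1) * a ^ 3) ≤ 1 / a ^ 2 - 1 / b ^ 2 := by
      have h4 : 1 / a ^ 2 - 1 / b ^ 2 = (b - a) * (b + a) / (a ^ 2 * b ^ 2) := by
        field_simp
        ring
      rw [h4, div_le_div_iff₀ (by positivity) (by positivity), one_mul]
      have h5 : 1 ≤ ((m : ℝ) + 1) * (b - a) := by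
        have := mul_le_mul_of_nonneg_left h1 (show (0 : ℝ) ≤ (m : ℝ) + 1 by linarith)
        rwa [mul_one_div_cancel (by linarith : (m : ℝ) + 1 ≠ 0)] at this
      have h6 : a ^ 2 * b ^ 2 ≤ (b + a) * (2 * a ^ 3) := by
        have h7 : b ^ 2 ≤ (b + a) * (2 * a) := by nlinarith
        nlinarith [mul_le_mul_of_nonneg_left h7 (show (0 : ℝ) ≤ a ^ 2 by positivity)]
      have h8 : 0 ≤ (b + a) * (2 * a ^ 3) := by positivity
      have h9 := mul_le_mul_of_nonneg_right h5 h8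
      nlinarith
    calc (m : ℝ) / a ^ 2 * (1 / ((m : ℝ) * a) - 1 / (((m : ℝ) + 1) * b)) ≤
        (m : ℝ) / a ^ 2 * (3 / ((m : ℝ) * a * (m + 1))) :=
          mul_le_mul_of_nonneg_left hup (by positivity)
      _ = 6 * (1 / (2 * ((m : ℝ) + 1) * a ^ 3)) := by
          field_simp
          ring
      _ ≤ 6 * (1 / a ^ 2 - 1 / b ^ 2) := by linarith

theorem PSM_ll (m : ℕ) (hm : 2 ≤ m) :
    PSM_g (m + 1) ≤ Real.log (Real.log ((m + 1 : ℕ) : ℝ)) - Real.log (Real.log m) ∧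
    Real.log (Real.log ((m + 1 : ℕ) : ℝ)) - Real.log (Real.log m) ≤ PSM_g m := by
  obtain ⟨ha, h1, h2, h3⟩ := PSM_logs m hm
  have hm2 : (2 : ℝ) ≤ m := by exact_mod_cast hm
  have hm0 : (0 : ℝ) < m := by linarith
  unfold PSM_g
  set a := Real.log (m : ℝ) with hadef
  set b := Real.log ((m + 1 : ℕ) : ℝ) with hbdef
  have hc : ((m + 1 : ℕ) : ℝ) = (m : ℝ) + 1 := by push_cast; ring
  rw [hc]
  have ha0 : 0 < a := by linarith
  have hb0 : 0 < b := by
    have : (0 : ℝ) < 1 / ((m : ℝ) + 1) := by positivity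
    linarith
  have hx : 0 < b / a := by positivity
  rw [← Real.log_div hb0.ne' ha0.ne']
  constructor
  · have h4 := Real.one_sub_inv_le_log_of_pos hx
    have h5 : 1 - (b / a)⁻¹ = (b - a) / b := by
      rw [inv_div]
      field_simp
    have h6 : 1 / (((m : ℝ) + 1) * b) ≤ (b - a) / b := by
      rw [← div_div]
      exact div_le_div_of_nonneg_right h1 hb0.le
    linarith
  · have h4 := Real.log_le_sub_one_of_pos hx
    have h5 : b / a - 1 = (b - a) / a := by field_simp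
    have h6 : (b - a) / a ≤ 1 / ((m : ℝ) * a) := by
      rw [← div_div]
      exact div_le_div_of_nonneg_right h2 ha0.le
    linarith

theorem PSM_th (v : ℕ) : th (v + 1) = th v + if (v + 1).Prime then Real.log ((v + 1 : ℕ) : ℝ) else 0 := by
  unfold th Pr
  rw [Finset.sum_filter, Finset.sum_filter, Finset.sum_Ioc_succ_top (Nat.zero_le v)]

theorem PSM_id (u : ℕ) (hu : 2 ≤ u) : ∀ v : ℕ, u ≤ v →
    ∑ p ∈ Pr u v, 1 / (p : ℝ) = ∑ m ∈ Ioc u v, PSM_g m + PSM_E v * PSM_g v - PSM_E u * PSM_g u +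
      ∑ m ∈ Ico u v, PSM_E m * (PSM_g m - PSM_g (m + 1)) := by
  intro v hv
  induction v, hv using Nat.le_induction with
  | base => simp [Pr]
  | succ v hv ih =>
    have h1 : ∑ p ∈ Pr u (v + 1), 1 / (p : ℝ) = ∑ p ∈ Pr u v, 1 / (p : ℝ) +
        if (v + 1).Prime then 1 / ((v + 1 : ℕ) : ℝ) else 0 := by
      unfold Pr
      rw [Finset.sum_filter, Finset.sum_filter, Finset.sum_Ioc_succ_top hv]
    have h2 : (if (v + 1).Prime then 1 / ((v + 1 : ℕ) : ℝ) else 0) =
        (th (v + 1) - th v) * PSM_g (v + 1) := by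
      rw [PSM_th v]
      have hl : Real.log ((v + 1 : ℕ) : ℝ) ≠ 0 := by
        have := (PSM_logs (v + 1) (by omega)).1
        linarith
      have hv0 : ((v + 1 : ℕ) : ℝ) ≠ 0 := by positivity
      unfold PSM_g
      split_ifs
      · rw [add_sub_cancel_left]
        field_simp
      · simp
    rw [h1, h2, ih, Finset.sum_Ioc_succ_top hv, Finset.sum_Ico_succ_top hv]
    have h3 : PSM_E (v + 1) = PSM_E v + (th (v + 1) - th v) - 1 := by
      unfold PSM_E
      push_cast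
      ring
    rw [h3]
    ring

theorem PSM_sum (u : ℕ) (hu : 2 ≤ u) : ∀ v : ℕ, u ≤ v →
    ∑ m ∈ Ioc u v, PSM_g m ≤ Real.log (Real.log v) - Real.log (Real.log u) ∧
    Real.log (Real.log v) - Real.log (Real.log u) ≤
      ∑ m ∈ Ioc u v, PSM_g m + PSM_g u - PSM_g v := by
  intro v hv
  induction v, hv using Nat.le_induction with
  | base => simp
  | succ v hv ih =>
    obtain ⟨h1, h2⟩ := PSM_ll v (by omega)
    rw [Finset.sum_Ioc_succ_top hv]
    constructor <;> linarith [ih.1, ih.2]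

theorem PSM_tel (C : ℝ) (hC : 0 < C) (hE : ∀ t : ℕ, 2 ≤ t → |PSM_E t| ≤ C * t / Real.log t ^ 2)
    (u : ℕ) (hu : 2 ≤ u) : ∀ v : ℕ, u ≤ v →
    |∑ m ∈ Ico u v, PSM_E m * (PSM_g m - PSM_g (m + 1))| ≤
      6 * C * (1 / Real.log u ^ 2 - 1 / Real.log v ^ 2) := by
  intro v hv
  induction v, hv using Nat.le_induction with
  | base => simp
  | succ v hv ih =>
    rw [Finset.sum_Ico_succ_top hv]
    obtain ⟨h1, h2⟩ := PSM_step v (by omega)
    have h3 : |PSM_E v * (PSM_g v - PSM_g (v + 1))| ≤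
        6 * C * (1 / Real.log v ^ 2 - 1 / Real.log ((v + 1 : ℕ) : ℝ) ^ 2) := by
      rw [abs_mul, abs_of_nonneg h1]
      calc |PSM_E v| * (PSM_g v - PSM_g (v + 1)) ≤
          C * v / Real.log v ^ 2 * (PSM_g v - PSM_g (v + 1)) :=
            mul_le_mul_of_nonneg_right (hE v (by omega)) h1
        _ = C * ((v : ℝ) / Real.log v ^ 2 * (PSM_g v - PSM_g (v + 1))) := by ring
        _ ≤ C * (6 * (1 / Real.log v ^ 2 - 1 / Real.log ((v + 1 : ℕ) : ℝ) ^ 2)) :=
            mul_le_mul_of_nonneg_left h2 hC.le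
        _ = _ := by ring
    calc |∑ m ∈ Ico u v, PSM_E m * (PSM_g m - PSM_g (m + 1)) +
          PSM_E v * (PSM_g v - PSM_g (v + 1))| ≤
        |∑ m ∈ Ico u v, PSM_E m * (PSM_g m - PSM_g (m + 1))| +
          |PSM_E v * (PSM_g v - PSM_g (v + 1))| := abs_add_le _ _
      _ ≤ _ := by linarith

theorem PSM_bd (C : ℝ) (hC : 0 < C) (hE : ∀ t : ℕ, 2 ≤ t → |PSM_E t| ≤ C * t / Real.log t ^ 2)
    (u v : ℕ) (hu : 2 ≤ u) (huv : u ≤ v) : |PSM_E v * PSM_g v| ≤ 2 * C / Real.log u ^ 2 := by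
  have hv : 2 ≤ v := hu.trans huv
  have hv0 : (0 : ℝ) < v := by
    have : (2 : ℝ) ≤ v := by exact_mod_cast hv
    linarith
  have hu0 : (0 : ℝ) < u := by
    have : (2 : ℝ) ≤ u := by exact_mod_cast hu
    linarith
  have ha := (PSM_logs v hv).1
  have hau := (PSM_logs u hu).1
  have hle : Real.log u ≤ Real.log v := Real.log_le_log hu0 (by exact_mod_cast huv)
  have hl0 : 0 < Real.log (v : ℝ) := by linarith
  have hg0 : 0 ≤ PSM_g v := by unfold PSM_g; positivity
  rw [abs_mul, abs_of_nonneg hg0]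
  calc |PSM_E v| * PSM_g v ≤ C * v / Real.log v ^ 2 * PSM_g v :=
        mul_le_mul_of_nonneg_right (hE v hv) hg0
    _ = C / Real.log v ^ 3 := by
        unfold PSM_g
        field_simp
    _ ≤ 2 * C / Real.log v ^ 2 := by
        rw [div_le_div_iff₀ (by positivity) (by positivity)]
        have h1 : C * Real.log v ^ 2 * 1 ≤ C * Real.log v ^ 2 * (2 * Real.log v) :=
          mul_le_mul_of_nonneg_left (by linarith) (by positivity)
        nlinarith
    _ ≤ 2 * C / Real.log u ^ 2 := by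
        apply div_le_div_of_nonneg_left (by positivity)
        · have : 0 < Real.log (u : ℝ) := by linarith
          positivity
        · exact pow_le_pow_left₀ (by linarith) hle 2

theorem p_PSM (hTH2 : S_TH2) : S_PSM := by
  obtain ⟨C, hC, hth⟩ := hTH2
  have hE : ∀ t : ℕ, 2 ≤ t → |PSM_E t| ≤ C * t / Real.log t ^ 2 := hth
  refine ⟨10 * C + 1, by positivity, fun u v hu huv => ?_⟩
  have hu2 : (2 : ℝ) ≤ u := by exact_mod_cast hu
  have hu0 : (0 : ℝ) < u := by linarith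
  have hau := (PSM_logs u hu).1
  have hv : 2 ≤ v := hu.trans huv
  have hav := (PSM_logs v hv).1
  have hl0 : 0 < Real.log (u : ℝ) := by linarith
  have hlv0 : 0 < Real.log (v : ℝ) := by linarith
  have h1 := PSM_id u hu v huv
  obtain ⟨h2, h3⟩ := PSM_sum u hu v huv
  have h4 := PSM_tel C hC hE u hu v huv
  have h5 := PSM_bd C hC hE u v hu huv
  have h6 := PSM_bd C hC hE u u hu le_rfl
  have hgu : PSM_g u ≤ 1 / Real.log u ^ 2 := by
    unfold PSM_g
    apply one_div_le_one_div_of_le (by positivity)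
    have hlog : Real.log u ≤ u := (Real.log_le_sub_one_of_pos hu0).trans (by linarith)
    nlinarith
  have hgv : 0 ≤ PSM_g v := by unfold PSM_g; positivity
  have hFv : 0 ≤ 1 / Real.log (v : ℝ) ^ 2 := by positivity
  have h7 : 6 * C * (1 / Real.log u ^ 2 - 1 / Real.log v ^ 2) ≤ 6 * C * (1 / Real.log u ^ 2) :=
    mul_le_mul_of_nonneg_left (by linarith) (by positivity)
  have h8 : (10 * C + 1) / Real.log u ^ 2 = 2 * C / Real.log u ^ 2 + 2 * C / Real.log u ^ 2 +
      6 * C * (1 / Real.log u ^ 2) + 1 / Real.log u ^ 2 := by ring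
  rw [h8, h1]
  rw [abs_le] at h4 h5 h6 ⊢
  constructor <;> linarith [h4.1, h4.2, h5.1, h5.2, h6.1, h6.2]

end Pool.GRO
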