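import Pool.Agent.Work.MP_495a89_gro.Interface
import Pool.Agent.Work.SW.PNT

set_option autoImplicit false

namespace Pool.GRO

open Finset

theorem TH2_theta (t : ℕ) : th t = Chebyshev.theta t := by
  unfold th Pr Chebyshev.theta
  rw [Nat.floor_natCast]

theorem TH2_log (x : ℝ) (hx : 1 ≤ x) : Real.log x ^ 3 ≤ 216 * Real.sqrt x := by
  have h0 : 0 ≤ x := by linarith
  have h1 : Real.log x ≤ x ^ (1 / 6 : ℝ) / (1 / 6) :=
    Real.log_le_rpow_div h0 (by norm_num)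
  have h2 : 0 ≤ Real.log x := Real.log_nonneg hx
  have h3 : Real.log x ^ 3 ≤ (x ^ (1 / 6 : ℝ) / (1 / 6)) ^ 3 := pow_le_pow_left₀ h2 h1 3
  have h4 : (x ^ (1 / 6 : ℝ)) ^ 3 = Real.sqrt x := by
    rw [← Real.rpow_natCast, ← Real.rpow_mul h0, Real.sqrt_eq_rpow]
    norm_num
  calc Real.log x ^ 3 ≤ (x ^ (1 / 6 : ℝ) / (1 / 6)) ^ 3 := h3
    _ = 216 * (x ^ (1 / 6 : ℝ)) ^ 3 := by ring
    _ = 216 * Real.sqrt x := by rw [h4]

theorem p_TH2 : S_TH2 := by
  obtain ⟨C, hC, h⟩ := Pool.Agent.SW.pnt 2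
  refine ⟨C + 432, by linarith, fun t ht => ?_⟩
  have ht2 : (2 : ℝ) ≤ (t : ℝ) := by exact_mod_cast ht
  have ht1 : (1 : ℝ) ≤ (t : ℝ) := by linarith
  have hL : 0 < Real.log t := Real.log_pos (by linarith)
  have h1 : |Chebyshev.psi t - t| ≤ C * (t / Real.log t ^ 2) := h t ht2
  have h2 : |Chebyshev.psi t - Chebyshev.theta t| ≤ 2 * Real.sqrt t * Real.log t :=
    Chebyshev.abs_psi_sub_theta_le_sqrt_mul_log ht1
  have h3 : 2 * Real.sqrt t * Real.log t ≤ 432 * (t / Real.log t ^ 2) := by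
    rw [← mul_div_assoc, le_div_iff₀ (by positivity)]
    have h4 := TH2_log t ht1
    have h5 : Real.sqrt t * Real.sqrt t = t := Real.mul_self_sqrt (by linarith)
    have h6 : 0 ≤ Real.sqrt t := Real.sqrt_nonneg _
    calc 2 * Real.sqrt t * Real.log t * Real.log t ^ 2
        = 2 * Real.sqrt t * Real.log t ^ 3 := by ring
      _ ≤ 2 * Real.sqrt t * (216 * Real.sqrt t) := by gcongr
      _ = 432 * (Real.sqrt t * Real.sqrt t) := by ring
      _ = 432 * t := by rw [h5]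
  rw [TH2_theta]
  calc |Chebyshev.theta t - t| = |(Chebyshev.psi t - t) - (Chebyshev.psi t - Chebyshev.theta t)| := by
        congr 1; ring
    _ ≤ |Chebyshev.psi t - t| + |Chebyshev.psi t - Chebyshev.theta t| := abs_sub _ _
    _ ≤ C * (t / Real.log t ^ 2) + 432 * (t / Real.log t ^ 2) := by linarith
    _ = (C + 432) * t / Real.log t ^ 2 := by ring

end Pool.GRO
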