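import Mathlib

/-!
# A second order form of Gronwall's theorem for multiperfect numbers (MP_495a89_nt)

THEOREM. `σ(n)/n ≤ e^γ (log log n + log (1 - log gcd(n,σ(n)) / (2 log n)) + o(1))`; in particular a
`k`-fold perfect `n` has `k ≤ e^γ (log log n - log 2 + o(1))`.

PROOF.  `x = log n`, `z = δ x`, `Y = x/δ`.  A prime `z < p ≤ Y` with `p ‖ n` sends `p + 1` into the
primes `≤ z` (EXC: with few exceptions), and these have to divide `n` up to the numerator of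
`σ(n)/n` (FLW); a prime with exponent `≥ 2` costs `2 log p`.  So `2 T ≤ x + log σ - log g + o(x)`
(FLO), `T` the sum of `log p` over the prime factors `z < p ≤ Y` of `n`.  The exchange argument
(EXG) and Mertens' theorem with error `o(1)` (M3S) give the result.

Every block is a `Prop` `S_X`; the file `B_X.lean` proves
`theorem p_X (h1 : S_Y) ... : S_X` in the namespace `Pool.GRO`.
-/

set_option autoImplicit false

namespace Pool.GRO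

open Finset

/-- the sum of the divisors -/
def sg (n : ℕ) : ℕ := ∑ d ∈ n.divisors, d

/-- the primes in `(a, b]` -/
def Pr (a b : ℕ) : Finset ℕ := (Ioc a b).filter Nat.Prime

/-- Chebyshev's function over the naturals -/
noncomputable def th (w : ℕ) : ℝ := ∑ p ∈ Pr 0 w, Real.log p

/-- Mertens' product -/
noncomputable def VP (w : ℕ) : ℝ := ∏ p ∈ Pr 0 w, (1 - 1 / (p : ℝ))⁻¹

/-- log mass of the prime factors `z < p ≤ Y` of `n`, without multiplicity -/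
noncomputable def T (n z Y : ℕ) : ℝ :=
  ∑ p ∈ n.primeFactors.filter (fun p => z < p ∧ p ≤ Y), Real.log p

/-- log of the `z`-smooth part of `n` -/
noncomputable def SP (n z : ℕ) : ℝ := ∑ q ∈ Pr 0 z, (n.factorization q : ℝ) * Real.log q

/-- `p + 1` has a prime factor above `z` -/
def Big (z p : ℕ) : Prop := ∃ r : ℕ, r.Prime ∧ z < r ∧ r ∣ p + 1

open Classical in
/-- log mass of the exceptional primes -/
noncomputable def EX (z Y : ℕ) : ℝ :=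
  ∑ p ∈ (Icc 1 Y).filter (fun p => p.Prime ∧ Big z p), Real.log p

/-! ## Elementary blocks -/

/-- Block AUP. `σ(n)/n ≤ ∏_{p ∣ n} (1 - 1/p)⁻¹`: multiplicative; `σ(p^e)/p^e = ∑_{i ≤ e} p^(-i)`
(`Nat.Coprime.sum_divisors_mul`, `Nat.sum_divisors`, geometric series). -/
def S_AUP : Prop := ∀ n : ℕ, 1 ≤ n → (sg n : ℝ) / n ≤ ∏ p ∈ n.primeFactors, (1 - 1 / (p : ℝ))⁻¹

/-- Block SGU. `σ(n) ≤ n (1 + log n)`: `σ(n) = ∑_{d ∣ n} n/d ≤ n ∑_{d ≤ n} 1/d`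
(`harmonic_le_one_add_log`). -/
def S_SGU : Prop := ∀ n : ℕ, 1 ≤ n → (sg n : ℝ) ≤ n * (1 + Real.log n)

/-- Block FLW. With `g = gcd(n, σ)`, `σ = g a`: `v_q(σ) = v_q(g) + v_q(a) ≤ v_q(n) + v_q(a)` and
`∑_q v_q(a) log q ≤ log a = log σ - log g`. -/
def S_FLW : Prop := ∀ n z : ℕ, 1 ≤ n →
  SP (sg n) z ≤ SP n z + (Real.log (sg n) - Real.log (n.gcd (sg n)))

open Classical in
/-- Block ONE. The product of the `p + 1` over the primes `p ‖ n` divides `σ(n)`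
(`σ(n) = ∏_p σ(p^(v_p(n)))`), so `∑_{these p} v_q(p+1) ≤ v_q(σ(n))`; if `p + 1` has no prime factor
above `z` then `∑_{q ≤ z} v_q(p+1) log q = log (p+1) ≥ log p`. -/
def S_ONE : Prop := ∀ n z Y : ℕ, 1 ≤ n →
  ∑ p ∈ n.primeFactors.filter (fun p => (z < p ∧ p ≤ Y) ∧ n.factorization p = 1 ∧ ¬ Big z p),
    Real.log p ≤ SP (sg n) z

/-- Block CST. `log n = ∑_p v_p(n) log p`, split into `p ≤ z`, `z < p ≤ Y` and `p > Y`; for
`z < p ≤ Y`: `v_p(n) ≥ 1`, and `v_p(n) ≥ 2` if `v_p(n) ≠ 1`. -/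
def S_CST : Prop := ∀ n z Y : ℕ, 1 ≤ n →
  T n z Y + ∑ p ∈ n.primeFactors.filter (fun p => (z < p ∧ p ≤ Y) ∧ n.factorization p ≠ 1),
    Real.log p + SP n z ≤ Real.log n

/-- Block FLO. `T` = (exponent ≠ 1) + (exponent 1, not Big) + (exponent 1, Big); the last sum is at
most `EX z Y`, the middle one at most `SP (sg n) z` by ONE; add CST and FLW. -/
def S_FLO : Prop := ∀ n z Y : ℕ, 1 ≤ n →
  2 * T n z Y ≤ Real.log n + (Real.log (sg n) - Real.log (n.gcd (sg n))) + EX z Y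

/-- Block EXC. Few primes `p ≤ Y` have a prime factor `r > z` of `p + 1`: `p + 1 = m r` with
`m ≤ M + 1`; for each `m` use `stmt_S2 : Stmt_S2` of
`Pool.Agent.Work.MP_495a89_nm` (file `Pool/Agent/Work/MP_495a89_nm/S2.lean`) with `k = m`,
`X = Y + 1`: the number of `r` is `≤ C (Y+1) (m/φ(m)) / log² (Y+1)`; weight `log p ≤ log (Y+1)`.
(If `Y < z` the set is empty.) -/
def S_EXC : Prop := ∀ (M : ℕ) (δ : ℝ), 0 < δ → ∃ z0 : ℕ, ∀ z Y : ℕ, z0 ≤ z → Y ≤ M * z →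
  EX z Y ≤ δ * z

/-- Block EXG. Exchange: `1/p - log p / (w log w)` is `≥ 0` for `p ≤ w` and `≤ 0` for `p > w`. -/
def S_EXG : Prop := ∀ (P : Finset ℕ) (z w Y : ℕ), (∀ p ∈ P, p.Prime) → 2 ≤ z → z ≤ w → w ≤ Y →
  ∑ p ∈ P.filter (fun p => z < p ∧ p ≤ Y), 1 / (p : ℝ) ≤
    ∑ p ∈ Pr z w, 1 / (p : ℝ) +
      (∑ p ∈ P.filter (fun p => z < p ∧ p ≤ Y), Real.log p - ∑ p ∈ Pr z w, Real.log p) /
        (w * Real.log w)

/-- Block TAI. `1/p ≤ log p / (Y log Y)` for `p > Y`, and `∑_{p ∣ n} log p ≤ log n`. -/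
def S_TAI : Prop := ∀ n Y : ℕ, 1 ≤ n → 2 ≤ Y →
  ∑ p ∈ n.primeFactors.filter (fun p => Y < p), 1 / (p : ℝ) ≤ Real.log n / (Y * Real.log Y)

/-- Block SQP. `(1-1/p)⁻¹ = 1 + 1/(p-1) ≤ exp (1/p + 1/(p(p-1)))`, `∑_{m > z} 1/(m(m-1)) ≤ 1/z`;
`(1-t)⁻¹ ≥ exp t`. -/
def S_SQP : Prop := ∀ (A : Finset ℕ) (z : ℕ), 1 ≤ z → (∀ p ∈ A, p.Prime ∧ z < p) →
  ∏ p ∈ A, (1 - 1 / (p : ℝ))⁻¹ ≤ Real.exp (∑ p ∈ A, 1 / (p : ℝ) + 1 / z) ∧
  Real.exp (∑ p ∈ A, 1 / (p : ℝ)) ≤ ∏ p ∈ A, (1 - 1 / (p : ℝ))⁻¹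

/-- Block CMP. Split `n.primeFactors` at `z` and `Y`: the part `≤ z` gives at most `VP z`; the rest
by SQP, TAI and EXG; `VP z * ∏_{z < p ≤ w} = VP w` and SQP (second part) for `Pr z w`. -/
def S_CMP : Prop := ∀ n z w Y : ℕ, 1 ≤ n → 2 ≤ z → z ≤ w → w ≤ Y →
  ∏ p ∈ n.primeFactors, (1 - 1 / (p : ℝ))⁻¹ ≤
    VP w * Real.exp (1 / z + Real.log n / (Y * Real.log Y) +
      (T n z Y - (th w - th z)) / (w * Real.log w))

/-! ## Prime number theorem -/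

/-- Block TH2. From `Pool.Agent.SW.pnt 2` (file `Pool/Agent/Work/SW/PNT.lean`) and
`ψ - θ = O(√x)` (Mathlib `Chebyshev.psi_sub_theta_le_mul_sqrt` or similar). -/
def S_TH2 : Prop := ∃ C : ℝ, 0 < C ∧ ∀ t : ℕ, 2 ≤ t → |th t - t| ≤ C * t / Real.log t ^ 2

/-- Block PSM. Partial summation: `∑_{u < p ≤ v} 1/p = ∑_{m=u+1}^{v} (th m - th (m-1)) / (m log m)`;
compare with `∑ 1/(m log m)` (the difference is `O(1/log² u)` by Abel summation and TH2: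
`∑_{m ≥ u} m/log² m · (1/(m log m) - 1/((m+1) log (m+1))) ≤ C ∑ 1/(m log³ m) ≤ C'/log² u`), and
`∑_{m=u+1}^{v} 1/(m log m)` with `log log v - log log u` (difference `≤ 1/(u log u)`). -/
def S_PSM : Prop := ∃ C : ℝ, 0 < C ∧ ∀ u v : ℕ, 2 ≤ u → u ≤ v →
  |∑ p ∈ Pr u v, 1 / (p : ℝ) - (Real.log (Real.log v) - Real.log (Real.log u))| ≤
    C / Real.log u ^ 2

/-- Block M3S. Mertens' third theorem, upper bound with error `o(1)`. For `w ≤ v`: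
`VP v / VP w ≥ exp (∑_{w < p ≤ v} 1/p) ≥ (log v / log w) exp (- C / log² w)` by SQP and PSM, and
`VP v / log v → e^γ` as `v → ∞` (`stmt_M3`-like: `tendsto_Vz`, `pp_one_eq`, see
`Pool/Agent/Work/MP_495a89_nm/M3.lean`); so `VP w ≤ e^γ log w exp (C / log² w)`. -/
def S_M3S : Prop := ∀ ε : ℝ, 0 < ε → ∃ w0 : ℕ, ∀ w : ℕ, w0 ≤ w →
  VP w ≤ Real.exp Real.eulerMascheroniConstant * (Real.log w + ε)

/-! ## The result -/

/-- Block FNA. `x = log n`, `W = (x + log σ - log g)/2`, so `x/2 ≤ W ≤ 2x` (SGU); `δ = ε/1000`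
(`ε ≤ 1`), `z = ⌊δ x⌋₊`, `w = ⌊W⌋₊`, `Y = ⌈x/δ⌉₊`.  `T ≤ W + δ z/2` (FLO, EXC),
`th w ≥ w - δ w`, `th z ≤ 2 z` (TH2), so the exponent in CMP is at most `40 δ / log x`. -/
def S_FNA : Prop := ∀ ε : ℝ, 0 < ε → ∃ N : ℕ, ∀ n : ℕ, N ≤ n →
  (sg n : ℝ) / n ≤ Real.exp Real.eulerMascheroniConstant *
    (Real.log ((Real.log n + (Real.log (sg n) - Real.log (n.gcd (sg n)))) / 2) + ε)

/-- Block RES. `log σ = x + log (σ/n)`, `0 ≤ log (σ/n) ≤ log (1 + x)`, `0 ≤ log g ≤ x`; so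
`log W = log x + log (1 - log g/(2x) + log(σ/n)/(2x)) ≤ log x + log (1 - log g/(2x)) + log(1+x)/x`.
-/
def S_RES : Prop := ∀ ε : ℝ, 0 < ε → ∃ N : ℕ, ∀ n : ℕ, N ≤ n →
  (∑ d ∈ n.divisors, (d : ℝ)) / n ≤ Real.exp Real.eulerMascheroniConstant *
    (Real.log (Real.log n) +
      Real.log (1 - Real.log (n.gcd (∑ d ∈ n.divisors, d)) / (2 * Real.log n)) + ε)

/-- Block COR. The case `σ(n) = k n` of RES: `gcd(n, σ(n)) = n`. -/
def S_COR : Prop := ∀ ε : ℝ, 0 < ε → ∃ N : ℕ, ∀ n k : ℕ, N ≤ n → ∑ d ∈ n.divisors, d = k * n →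
  (k : ℝ) ≤ Real.exp Real.eulerMascheroniConstant * (Real.log (Real.log n) - Real.log 2 + ε) ∧
  (2 - ε) * Real.exp (Real.exp (-Real.eulerMascheroniConstant) * k) ≤ Real.log n

end Pool.GRO
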